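import Mathlib

/-! Moments of a multiplicative function. -/

set_option autoImplicit false

open Finset

namespace Pool.Agent.Helper255.GG

/-- `∏_{p ∣ m} (1 + 20 / p)` -/
noncomputable def F (m : ℕ) : ℝ := ∏ p ∈ m.primeFactors, (1 + 20 / (p : ℝ))

lemma one_le_fac (p : ℕ) : (1 : ℝ) ≤ 1 + 20 / (p : ℝ) := by
  have : (0 : ℝ) ≤ 20 / (p : ℝ) := by positivity
  linarith

lemma one_le_F (m : ℕ) : 1 ≤ F m := by
  unfold F
  calc (1 : ℝ) = ∏ p ∈ m.primeFactors, (1 : ℝ) := by simp
    _ ≤ _ := prod_le_prod (fun _ _ => zero_le_one) (fun p _ => one_le_fac p)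

/-- the average of a product over the prime factors -/
theorem avg (g : ℕ → ℝ) (hg : ∀ p, 0 ≤ g p) (c : ℝ) (hc : 0 ≤ c) (hgc : ∀ p : ℕ, p.Prime → g p ≤ c / p) (M : ℕ) :
    ∑ m ∈ Icc 1 M, ∏ p ∈ m.primeFactors, (1 + g p) ≤ Real.exp (2 * c) * M := by
  classical
  set P : Finset ℕ := (Icc 1 M).filter Nat.Prime with hP
  -- expand
  have h1 : ∀ m ∈ Icc 1 M, ∏ p ∈ m.primeFactors, (1 + g p) =
      ∑ S ∈ P.powerset, (if (∏ p ∈ S, p) ∣ m then ∏ p ∈ S, g p else 0) := by
    intro m hm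
    rw [mem_Icc] at hm
    have e1 : m.primeFactors = P.filter (fun p => p ∣ m) := by
      ext p
      simp only [Nat.mem_primeFactors, hP, mem_filter, mem_Icc]
      constructor
      · rintro ⟨a1, a2, a3⟩
        exact ⟨⟨⟨a1.one_le, (Nat.le_of_dvd (by omega) a2).trans hm.2⟩, a1⟩, a2⟩
      · rintro ⟨⟨_, a2⟩, a3⟩
        exact ⟨a2, a3, by omega⟩
    rw [e1, Finset.prod_one_add]
    symm
    rw [← sum_filter]
    apply sum_congr
    · ext S
      simp only [mem_filter, mem_powerset]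
      constructor
      · rintro ⟨a1, a2⟩ p hp
        exact mem_filter.2 ⟨a1 hp, (dvd_prod_of_mem _ hp).trans a2⟩
      · intro a1
        refine ⟨fun p hp => (mem_filter.1 (a1 hp)).1, ?_⟩
        apply Finset.prod_primes_dvd
        · intro p hp
          exact (mem_filter.1 (mem_filter.1 (a1 hp)).1).2.prime
        · intro p hp
          exact (mem_filter.1 (a1 hp)).2
    · intro S _
      rfl
  rw [sum_congr rfl h1, sum_comm]
  have h2 : ∀ S ∈ P.powerset, ∑ m ∈ Icc 1 M, (if (∏ p ∈ S, p) ∣ m then ∏ p ∈ S, g p else 0) ≤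
      (M : ℝ) * ∏ p ∈ S, (g p / p) := by
    intro S hS
    rw [mem_powerset] at hS
    rw [← sum_filter, sum_const, nsmul_eq_mul]
    have hpos : 0 < ∏ p ∈ S, p := prod_pos fun p hp => (mem_filter.1 (hS hp)).2.pos
    have hcard : ((Icc 1 M).filter (fun m => (∏ p ∈ S, p) ∣ m)).card = M / (∏ p ∈ S, p) := by
      have := Nat.Ioc_filter_dvd_card_eq_div M (∏ p ∈ S, p)
      exact this
    rw [hcard, prod_div_distrib]
    have h3 : ((M / (∏ p ∈ S, p) : ℕ) : ℝ) ≤ (M : ℝ) / ((∏ p ∈ S, p : ℕ) : ℝ) := Nat.cast_div_le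
    have h4 : 0 ≤ ∏ p ∈ S, g p := prod_nonneg fun p _ => hg p
    calc ((M / (∏ p ∈ S, p) : ℕ) : ℝ) * ∏ p ∈ S, g p ≤ (M : ℝ) / ((∏ p ∈ S, p : ℕ) : ℝ) * ∏ p ∈ S, g p :=
          mul_le_mul_of_nonneg_right h3 h4
      _ = _ := by
          push_cast
          ring
  refine (sum_le_sum h2).trans ?_
  rw [← mul_sum, ← Finset.prod_one_add, mul_comm]
  apply mul_le_mul_of_nonneg_right _ (Nat.cast_nonneg _)
  -- the Euler product
  have h5 : ∀ p ∈ P, 1 + g p / p ≤ Real.exp (c * (1 / (p : ℝ) ^ 2)) := by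
    intro p hp
    have hpp := (mem_filter.1 hp).2
    have hp0 : (0 : ℝ) < p := by exact_mod_cast hpp.pos
    have : g p / p ≤ c * (1 / (p : ℝ) ^ 2) := by
      calc g p / p ≤ (c / p) / p := div_le_div_of_nonneg_right (hgc p hpp) hp0.le
        _ = c * (1 / (p : ℝ) ^ 2) := by field_simp
    linarith [Real.add_one_le_exp (c * (1 / (p : ℝ) ^ 2))]
  calc ∏ p ∈ P, (1 + g p / p) ≤ ∏ p ∈ P, Real.exp (c * (1 / (p : ℝ) ^ 2)) := by
        apply prod_le_prod
        · intro p _
          have := hg p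
          positivity
        · exact h5
    _ = Real.exp (c * ∑ p ∈ P, 1 / (p : ℝ) ^ 2) := by rw [← Real.exp_sum, mul_sum]
    _ ≤ Real.exp (2 * c) := by
        apply Real.exp_le_exp.2
        have h6 : ∑ p ∈ P, 1 / (p : ℝ) ^ 2 ≤ 2 := by
          have h7 : ∀ K : ℕ, ∑ k ∈ Icc 1 (K + 1), 1 / (k : ℝ) ^ 2 ≤ 2 - 1 / ((K : ℝ) + 1) := by
            intro K
            induction K with
            | zero => norm_num
            | succ K ih =>
              rw [Finset.sum_Icc_succ_top (by omega)]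
              have e : 1 / ((K + 1 + 1 : ℕ) : ℝ) ^ 2 ≤ 1 / ((K : ℝ) + 1) - 1 / (((K + 1 : ℕ) : ℝ) + 1) := by
                push_cast
                have e1 : (0 : ℝ) < (K : ℝ) + 1 := by positivity
                have e2 : (0 : ℝ) < (K : ℝ) + 1 + 1 := by positivity
                have e3 : 1 / ((K : ℝ) + 1) - 1 / ((K : ℝ) + 1 + 1) = 1 / (((K : ℝ) + 1) * ((K : ℝ) + 1 + 1)) := by
                  field_simp
                  ring
                rw [e3]
                apply div_le_div_of_nonneg_left zero_le_one (by positivity)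
                nlinarith
              push_cast at ih e ⊢
              linarith
          rcases Nat.eq_zero_or_pos M with hM | hM
          · subst hM
            simp [hP]
          · obtain ⟨K, rfl⟩ : ∃ K, M = K + 1 := ⟨M - 1, by omega⟩
            refine le_trans (sum_le_sum_of_subset_of_nonneg (filter_subset _ _) (fun k _ _ => by positivity)) ?_
            have := h7 K
            have h8 : (0 : ℝ) ≤ 1 / ((K : ℝ) + 1) := by positivity
            linarith
        nlinarith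

/-- the sixth moment of `F` -/
theorem mom6 : ∃ C : ℝ, 0 < C ∧ ∀ M : ℕ, ∑ m ∈ Icc 1 M, F m ^ 6 ≤ C * M := by
  refine ⟨Real.exp (2 * (120 * 11 ^ 5)), Real.exp_pos _, fun M => ?_⟩
  -- at the primes
  have hex : ∀ p : ℕ, ∃ y : ℝ, y = if p = 0 ∨ p = 1 then 0 else (1 + 20 / (p : ℝ)) ^ 6 - 1 := fun p => ⟨_, rfl⟩
  choose g hgd using hex
  have hg0 : ∀ p, 0 ≤ g p := by
    intro p
    rw [hgd]
    split_ifs
    · exact le_rfl
    · have := one_le_pow₀ (one_le_fac p) (n := 6)
      linarith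
  have h1 := avg g hg0 (120 * 11 ^ 5) (by positivity) (by
    intro p hp
    rw [hgd, if_neg (by
      have := hp.two_le
      omega)]
    have hp2 : (2 : ℝ) ≤ p := by exact_mod_cast hp.two_le
    obtain ⟨u, hu⟩ : ∃ u : ℝ, u = 20 / (p : ℝ) := ⟨_, rfl⟩
    have hu0 : 0 ≤ u := by rw [hu]; positivity
    have hu1 : u ≤ 10 := by
      rw [hu, div_le_iff₀ (by linarith)]
      linarith
    rw [← hu]
    have e : (1 + u) ^ 6 - 1 = u * ((1 + u) ^ 5 + (1 + u) ^ 4 + (1 + u) ^ 3 + (1 + u) ^ 2 + (1 + u) + 1) := by ring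
    have h11 : ∀ k : ℕ, k ≤ 5 → (1 + u) ^ k ≤ 11 ^ 5 := by
      intro k hk
      calc (1 + u) ^ k ≤ (11 : ℝ) ^ k := pow_le_pow_left₀ (by linarith) (by linarith) k
        _ ≤ 11 ^ 5 := pow_le_pow_right₀ (by norm_num) hk
    rw [e]
    have := h11 5 le_rfl
    have := h11 4 (by norm_num)
    have := h11 3 (by norm_num)
    have := h11 2 (by norm_num)
    have h12 := h11 1 (by norm_num)
    have := h11 0 (by norm_num)
    rw [pow_one] at h12
    calc u * ((1 + u) ^ 5 + (1 + u) ^ 4 + (1 + u) ^ 3 + (1 + u) ^ 2 + (1 + u) + 1) ≤ u * (6 * (11 : ℝ) ^ 5) := by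
          apply mul_le_mul_of_nonneg_left _ hu0
          linarith
      _ = 120 * (11 : ℝ) ^ 5 / p := by rw [hu]; ring) M
  refine le_trans (le_of_eq ?_) h1
  apply sum_congr rfl
  intro m _
  unfold F
  rw [← prod_pow]
  apply prod_congr rfl
  intro p hp
  have := (Nat.prime_of_mem_primeFactors hp).two_le
  rw [hgd, if_neg (by omega)]
  ring

end Pool.Agent.Helper255.GG
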