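import Pool.Agent.Helper255.GG.Low
import Pool.Agent.Helper255.GG.Mom

/-! Almost all vertices have a positive proportion of the vertices at distance two. -/

set_option autoImplicit false

open Finset

namespace Pool.Agent.Helper255.GG

open Pool.Agent.W93.PG (WinP cnt)

lemma amgm3 (u v w : ℝ) :
    u ^ 2 * v ^ 2 * w ^ 2 ≤ (u ^ 6 + v ^ 6 + w ^ 6) / 3 := by
  have key : ∀ a b c : ℝ, 0 ≤ a → 0 ≤ b → 0 ≤ c → a * b * c ≤ (a ^ 3 + b ^ 3 + c ^ 3) / 3 := by
    intro a b c ha hb hc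
    nlinarith [mul_nonneg (add_nonneg (add_nonneg ha hb) hc)
      (add_nonneg (add_nonneg (sq_nonneg (a - b)) (sq_nonneg (b - c))) (sq_nonneg (a - c)))]
  have := key (u ^ 2) (v ^ 2) (w ^ 2) (by positivity) (by positivity) (by positivity)
  calc u ^ 2 * v ^ 2 * w ^ 2 ≤ ((u ^ 2) ^ 3 + (v ^ 2) ^ 3 + (w ^ 2) ^ 3) / 3 := this
    _ = (u ^ 6 + v ^ 6 + w ^ 6) / 3 := by ring

/-- the second moment -/
lemma second (C C6 : ℝ) (hC : 0 < C) (hC6 : 0 < C6) (h6 : ∀ M : ℕ, ∑ m ∈ Icc 1 M, F m ^ 6 ≤ C6 * M)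
    (n x : ℕ) (hx : x ≤ n) (K B : ℝ) (hK : G x ≤ K)
    (hN : ∀ z, 1 ≤ z → z < x → (N2 x z : ℝ) ≤ C * B * (G x * (F z * F (x - z) * F (x + z)))) :
    ∑ z ∈ Ico 1 x, (N2 x z : ℝ) ^ 2 ≤ 2 * C6 * K ^ 2 * C ^ 2 * B ^ 2 * n := by
  have hF0 : ∀ m, 0 ≤ F m := fun m => le_trans zero_le_one (one_le_F m)
  have h1 : ∀ z ∈ Ico 1 x, (N2 x z : ℝ) ^ 2 ≤
      K ^ 2 * C ^ 2 * B ^ 2 * ((F z ^ 6 + F (x - z) ^ 6 + F (x + z) ^ 6) / 3) := by
    intro z hz
    rw [mem_Ico] at hz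
    have h2 := hN z hz.1 hz.2
    have h3 : (N2 x z : ℝ) ^ 2 ≤ (C * B * (G x * (F z * F (x - z) * F (x + z)))) ^ 2 :=
      pow_le_pow_left₀ (Nat.cast_nonneg _) h2 2
    refine h3.trans ?_
    have h4 := amgm3 (F z) (F (x - z)) (F (x + z))
    have h5 : G x ^ 2 ≤ K ^ 2 := pow_le_pow_left₀ (le_trans zero_le_one (one_le_G x)) hK 2
    calc (C * B * (G x * (F z * F (x - z) * F (x + z)))) ^ 2
        = G x ^ 2 * (C ^ 2 * B ^ 2 * (F z ^ 2 * F (x - z) ^ 2 * F (x + z) ^ 2)) := by ring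
      _ ≤ K ^ 2 * (C ^ 2 * B ^ 2 * ((F z ^ 6 + F (x - z) ^ 6 + F (x + z) ^ 6) / 3)) := by
          apply mul_le_mul h5 _ (by positivity) (by positivity)
          apply mul_le_mul_of_nonneg_left h4 (by positivity)
      _ = _ := by ring
  refine (sum_le_sum h1).trans ?_
  rw [← mul_sum, ← sum_div, sum_add_distrib, sum_add_distrib]
  have e1 : ∑ z ∈ Ico 1 x, F z ^ 6 ≤ C6 * n := by
    refine le_trans ?_ (h6 n)
    apply sum_le_sum_of_subset_of_nonneg
    · intro z hz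
      rw [mem_Ico] at hz
      rw [mem_Icc]
      omega
    · intro i _ _
      exact pow_nonneg (hF0 i) 6
  have e2 : ∑ z ∈ Ico 1 x, F (x - z) ^ 6 ≤ C6 * n := by
    refine le_trans (le_trans (le_of_eq ?_) (sum_le_sum_of_subset_of_nonneg (s := Ico 1 x) (t := Icc 1 n)
      (f := fun z => F z ^ 6) ?_ ?_)) (h6 n)
    · apply sum_nbij' (fun z => x - z) (fun z => x - z)
      · intro z hz
        rw [mem_Ico] at hz ⊢
        omega
      · intro z hz
        rw [mem_Ico] at hz ⊢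
        omega
      · intro z hz
        rw [mem_Ico] at hz
        omega
      · intro z hz
        rw [mem_Ico] at hz
        omega
      · intro z hz
        rfl
    · intro z hz
      rw [mem_Ico] at hz
      rw [mem_Icc]
      omega
    · intro i _ _
      exact pow_nonneg (hF0 i) 6
  have e3 : ∑ z ∈ Ico 1 x, F (x + z) ^ 6 ≤ C6 * (2 * n : ℕ) := by
    refine le_trans (le_trans (le_of_eq ?_) (sum_le_sum_of_subset_of_nonneg (s := Ico (x + 1) (x + x)) (t := Icc 1 (2 * n))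
      (f := fun z => F z ^ 6) ?_ ?_)) (h6 (2 * n))
    · apply sum_nbij' (fun z => x + z) (fun z => z - x)
      · intro z hz
        rw [mem_Ico] at hz ⊢
        omega
      · intro z hz
        rw [mem_Ico] at hz ⊢
        omega
      · intro z hz
        rw [mem_Ico] at hz
        omega
      · intro z hz
        rw [mem_Ico] at hz
        omega
      · intro z hz
        rfl
    · intro z hz
      rw [mem_Ico] at hz
      rw [mem_Icc]
      omega
    · intro i _ _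
      exact pow_nonneg (hF0 i) 6
  push_cast at e3
  have h7 : (∑ z ∈ Ico 1 x, F z ^ 6 + ∑ z ∈ Ico 1 x, F (x - z) ^ 6 + ∑ z ∈ Ico 1 x, F (x + z) ^ 6) / 3 ≤ 2 * C6 * n := by
    have : 0 ≤ C6 * n := by positivity
    linarith
  calc K ^ 2 * C ^ 2 * B ^ 2 * ((∑ z ∈ Ico 1 x, F z ^ 6 + ∑ z ∈ Ico 1 x, F (x - z) ^ 6 + ∑ z ∈ Ico 1 x, F (x + z) ^ 6) / 3)
      ≤ K ^ 2 * C ^ 2 * B ^ 2 * (2 * C6 * n) := mul_le_mul_of_nonneg_left h7 (by positivity)
    _ = _ := by ring

open Pool.Agent.H560R3.GB (sing)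
open Pool.Agent.W93.GB (one_le_sing)
open Pool.Agent.TH935.DF (HC)

/-- the number of the vertices `z < x` at distance two from `x` (below `x`) -/
def T2 (x : ℕ) : ℕ := ((Ico 1 x).filter (fun z => 0 < N2 x z)).card

/-- almost all vertices are adjacent to, or are, vertices with a positive proportion of the vertices at
distance two -/
theorem core : ∃ c : ℝ, 0 < c ∧ ∀ A : ℕ, ∃ n₀ : ℕ, ∀ n : ℕ, n₀ ≤ n → ∃ Ex : Finset ℕ, Ex ⊆ Icc 1 n ∧
    (Ex.card : ℝ) ≤ n / Real.log n ^ A ∧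
    ∀ x ∈ Icc 1 n, x ∉ Ex → c * n ≤ (T2 x : ℝ) ∨ ∃ y ∈ Icc 1 n, E y x ∧ c * n ≤ (T2 y : ℝ) := by
  classical
  obtain ⟨C, hC, n1, hN⟩ := N2_le
  obtain ⟨C6, hC6, h6⟩ := mom6
  have hF0 : ∀ m, 0 ≤ F m := fun m => le_trans zero_le_one (one_le_F m)
  obtain ⟨a, ha_def⟩ : ∃ a : ℝ, a = 1 / 8 := ⟨_, rfl⟩
  have ha : 0 < a := by rw [ha_def]; norm_num
  obtain ⟨c, hc_def⟩ : ∃ c : ℝ, c = a ^ 4 / (64 ^ 4 * (2 * C6 * Real.exp 2 ^ 2 * C ^ 2)) := ⟨_, rfl⟩
  have he2 : 0 < Real.exp 2 := Real.exp_pos 2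
  have hc : 0 < c := by rw [hc_def]; positivity
  refine ⟨c, hc, fun A => ?_⟩
  obtain ⟨n2, hbad⟩ := bad_few (A + 6)
  obtain ⟨n3, hbadD⟩ := badD_few (A + 1)
  -- large `n`
  have hev : ∀ᶠ n : ℕ in Filter.atTop, 64 / a ≤ Real.log n ∧ 16 / a ≤ (n : ℝ) ∧
      3 ≤ (n : ℝ) ∧ Real.exp 8 / a ≤ (n : ℝ) ∧ n1 ≤ n ∧ n2 ≤ n ∧ n3 ≤ n ∧ 8 ≤ n := by
    have hl := Real.tendsto_log_atTop.comp (tendsto_natCast_atTop_atTop (R := ℝ))
    have hn := tendsto_natCast_atTop_atTop (R := ℝ)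
    filter_upwards [hl.eventually_ge_atTop (64 / a),
      hn.eventually_ge_atTop (16 / a), hn.eventually_ge_atTop 3, hn.eventually_ge_atTop (Real.exp 8 / a),
      Filter.eventually_ge_atTop n1, Filter.eventually_ge_atTop n2, Filter.eventually_ge_atTop n3,
      Filter.eventually_ge_atTop 8] with n e1 e4 e5 e6 e7 e8 e9 e10
    exact ⟨e1, e4, e5, e6, e7, e8, e9, e10⟩
  obtain ⟨n₀, hn₀⟩ := Filter.eventually_atTop.1 hev
  refine ⟨n₀, fun n hn => ?_⟩
  obtain ⟨e1, e4, e5, e6, e7, e8, e9, e10⟩ := hn₀ n hn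
  obtain ⟨L, hL⟩ : ∃ L, L = Real.log n := ⟨_, rfl⟩
  have e3 : 512 ≤ L := by
    rw [hL]
    refine le_trans (le_of_eq ?_) e1
    rw [ha_def]
    norm_num
  have hL0 : 0 < L := by linarith
  have hn0 : (0 : ℝ) < n := by linarith
  obtain ⟨Bad, hBad⟩ : ∃ Bad, Bad = (Icc 1 n).filter (fun y => ¬ WinP (1 / 2) 1 (2 * y)) := ⟨_, rfl⟩
  have hBc : (Bad.card : ℝ) ≤ n / L ^ (A + 6) := by
    rw [hBad, hL]
    exact hbad n e8 _ (filter_subset _ _) (fun y hy => (mem_filter.1 hy).2)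
  obtain ⟨A3, hA3⟩ : ∃ A3, A3 = (Icc 1 n).filter
    (fun x : ℕ => (n : ℝ) / L ^ 3 < ((Bad.filter (fun y => E x y)).card : ℝ)) := ⟨_, rfl⟩
  have hA3n : A3.card ≤ n := by
    rw [hA3]
    have := card_le_card (filter_subset (fun x : ℕ => (n : ℝ) / L ^ 3 < ((Bad.filter (fun y => E x y)).card : ℝ)) (Icc 1 n))
    rwa [Nat.card_Icc, Nat.add_sub_cancel] at this
  have c3 : (A3.card : ℝ) ≤ n / L ^ (A + 3) := by
    have h1 : (A3.card : ℝ) * ((n : ℝ) / L ^ 3) ≤ ∑ x ∈ A3, ((Bad.filter (fun y => E x y)).card : ℝ) := by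
      rw [← nsmul_eq_mul]
      apply card_nsmul_le_sum
      intro x hx
      rw [hA3, mem_filter] at hx
      exact hx.2.le
    have h2 : ∑ x ∈ A3, ((Bad.filter (fun y => E x y)).card : ℝ) ≤ n * Bad.card := by
      calc ∑ x ∈ A3, ((Bad.filter (fun y => E x y)).card : ℝ) ≤ ∑ x ∈ A3, (Bad.card : ℝ) := by
            apply sum_le_sum
            intro x _
            exact_mod_cast card_le_card (filter_subset _ _)
        _ = A3.card * Bad.card := by rw [sum_const, nsmul_eq_mul]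
        _ ≤ n * Bad.card := by
            apply mul_le_mul_of_nonneg_right _ (Nat.cast_nonneg _)
            exact_mod_cast hA3n
    have h3 : (A3.card : ℝ) * ((n : ℝ) / L ^ 3) ≤ n * (n / L ^ (A + 6)) :=
      (h1.trans h2).trans (mul_le_mul_of_nonneg_left hBc hn0.le)
    have h4 : (n : ℝ) * (n / L ^ (A + 6)) = (n / L ^ (A + 3)) * (n / L ^ 3) := by
      rw [pow_add, pow_add]
      field_simp
    rw [h4] at h3
    exact le_of_mul_le_mul_right h3 (by positivity)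
  -- the typical upper vertices
  have hT : ∀ x ∈ Icc 1 n, a * n ≤ x → x ∉ Bad → x ∉ A3 → c * n ≤ (T2 x : ℝ) := by
    intro x hx1 i1 g2 g3
    have hx1' := mem_Icc.1 hx1
    have i2 : WinP (1 / 2) 1 (2 * x) := by
      by_contra h
      apply g2
      rw [hBad]
      exact mem_filter.2 ⟨hx1, h⟩
    have i3 : ((Bad.filter (fun y => E x y)).card : ℝ) ≤ n / L ^ 3 := by
      by_contra h
      apply g3
      rw [hA3]
      exact mem_filter.2 ⟨hx1, not_le.1 h⟩
    have hlow := paths_low a n x n L rfl ha i1 hx1'.2 hL (by rw [hL]; exact e1) e4 e5 (by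
      intro y hy
      have h1 : Real.exp 8 ≤ ((2 * y : ℕ) : ℝ) := by
        rw [div_le_iff₀ ha] at e6
        push_cast
        linarith
      calc (8 : ℝ) = Real.log (Real.exp 8) := (Real.log_exp 8).symm
        _ ≤ _ := Real.log_le_log (Real.exp_pos 8) h1) i2 Bad (by
      intro y hy hy2
      by_contra h
      apply hy2
      rw [hBad]
      exact mem_filter.2 ⟨hy, h⟩) i3
    have hs1 := one_le_sing (2 * x)
    obtain ⟨σ, hσ⟩ : ∃ σ, σ = sing (2 * x) := ⟨_, rfl⟩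
    have hG := G_le_sing x
    rw [← hσ] at hs1 hlow hG
    have hσ0 : 0 < σ := by linarith
    have hsec := second C C6 hC hC6 h6 n x hx1'.2 (Real.exp 2 * σ) (n / L ^ 4) hG
      (fun z hz1 hz2 => by
        have := hN n e7 x z hz1 hz2 hx1'.2
        rwa [← hL] at this)
    -- Cauchy-Schwarz
    have hcs : ((∑ z ∈ Ico 1 x, N2 x z : ℕ) : ℝ) ^ 2 ≤ T2 x * ∑ z ∈ Ico 1 x, (N2 x z : ℝ) ^ 2 := by
      have h1 : ((∑ z ∈ Ico 1 x, N2 x z : ℕ) : ℝ) = ∑ z ∈ (Ico 1 x).filter (fun z => 0 < N2 x z), (N2 x z : ℝ) := by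
        push_cast
        rw [sum_filter]
        apply sum_congr rfl
        intro z _
        split_ifs with h
        · rfl
        · have : N2 x z = 0 := by omega
          rw [this, Nat.cast_zero]
      rw [h1]
      refine (sq_sum_le_card_mul_sum_sq).trans ?_
      unfold T2
      apply mul_le_mul_of_nonneg_left _ (Nat.cast_nonneg _)
      apply sum_le_sum_of_subset_of_nonneg (filter_subset _ _)
      intro i _ _
      positivity
    have hS : (σ * (a * n / (64 * L ^ 2)) ^ 2) ^ 2 ≤ ((∑ z ∈ Ico 1 x, N2 x z : ℕ) : ℝ) ^ 2 :=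
      pow_le_pow_left₀ (by positivity) hlow 2
    have hfin : (σ * (a * n / (64 * L ^ 2)) ^ 2) ^ 2 ≤ T2 x * (2 * C6 * (Real.exp 2 * σ) ^ 2 * C ^ 2 * (n / L ^ 4) ^ 2 * n) :=
      (hS.trans hcs).trans (mul_le_mul_of_nonneg_left hsec (Nat.cast_nonneg _))
    have e : (σ * (a * n / (64 * L ^ 2)) ^ 2) ^ 2 =
        (c * n) * (2 * C6 * (Real.exp 2 * σ) ^ 2 * C ^ 2 * (n / L ^ 4) ^ 2 * n) := by
      rw [hc_def]
      field_simp
    rw [e] at hfin
    exact le_of_mul_le_mul_right hfin (by positivity)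
  -- the exceptional small vertices
  obtain ⟨BD, hBD⟩ : ∃ BD, BD = (Icc 1 (n / 4)).filter (fun x => ¬ HC (1 / 2) 1 0 1 n (2 * x)) := ⟨_, rfl⟩
  have hBDc : (BD.card : ℝ) ≤ n / L ^ (A + 1) := by
    rw [hBD, hL]
    exact hbadD n e9 _ (filter_subset _ _) (fun y hy => (mem_filter.1 hy).2)
  obtain ⟨A5, hA5⟩ : ∃ A5, A5 = (Icc 1 n).filter
    (fun x : ℕ => (n : ℝ) / (8 * L ^ 2) ≤ (((Bad ∪ A3).filter (fun y => E y x)).card : ℝ)) := ⟨_, rfl⟩
  have hA5n : A5.card ≤ n := by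
    rw [hA5]
    have := card_le_card (filter_subset (fun x : ℕ => (n : ℝ) / (8 * L ^ 2) ≤ (((Bad ∪ A3).filter (fun y => E y x)).card : ℝ)) (Icc 1 n))
    rwa [Nat.card_Icc, Nat.add_sub_cancel] at this
  have hun : ((Bad ∪ A3).card : ℝ) ≤ 2 * (n / L ^ (A + 3)) := by
    have h1 : ((Bad ∪ A3).card : ℝ) ≤ Bad.card + A3.card := by exact_mod_cast card_union_le _ _
    have h2 : (n : ℝ) / L ^ (A + 6) ≤ n / L ^ (A + 3) := by
      apply div_le_div_of_nonneg_left hn0.le (by positivity)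
      exact pow_le_pow_right₀ (by linarith) (by omega)
    linarith
  have c5 : (A5.card : ℝ) ≤ 16 * (n / L ^ (A + 1)) := by
    have h1 : (A5.card : ℝ) * ((n : ℝ) / (8 * L ^ 2)) ≤ ∑ x ∈ A5, (((Bad ∪ A3).filter (fun y => E y x)).card : ℝ) := by
      rw [← nsmul_eq_mul]
      apply card_nsmul_le_sum
      intro x hx
      rw [hA5, mem_filter] at hx
      exact hx.2
    have h2 : ∑ x ∈ A5, (((Bad ∪ A3).filter (fun y => E y x)).card : ℝ) ≤ n * (Bad ∪ A3).card := by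
      calc ∑ x ∈ A5, (((Bad ∪ A3).filter (fun y => E y x)).card : ℝ) ≤ ∑ x ∈ A5, ((Bad ∪ A3).card : ℝ) := by
            apply sum_le_sum
            intro x _
            exact_mod_cast card_le_card (filter_subset _ _)
        _ = A5.card * (Bad ∪ A3).card := by rw [sum_const, nsmul_eq_mul]
        _ ≤ n * (Bad ∪ A3).card := by
            apply mul_le_mul_of_nonneg_right _ (Nat.cast_nonneg _)
            exact_mod_cast hA5n
    have h3 : (A5.card : ℝ) * ((n : ℝ) / (8 * L ^ 2)) ≤ n * (2 * (n / L ^ (A + 3))) :=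
      (h1.trans h2).trans (mul_le_mul_of_nonneg_left hun hn0.le)
    have h4 : (n : ℝ) * (2 * (n / L ^ (A + 3))) = (16 * (n / L ^ (A + 1))) * (n / (8 * L ^ 2)) := by
      rw [pow_add, pow_add]
      field_simp
      ring
    rw [h4] at h3
    exact le_of_mul_le_mul_right h3 (by positivity)
  refine ⟨(Bad ∪ A3) ∪ (BD ∪ A5), ?_, ?_, ?_⟩
  · rw [hBad, hA3, hBD, hA5]
    refine union_subset (union_subset (filter_subset _ _) (filter_subset _ _)) (union_subset ?_ (filter_subset _ _))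
    refine (filter_subset _ _).trans ?_
    exact Icc_subset_Icc le_rfl (Nat.div_le_self n 4)
  · rw [← hL]
    have h1 : ((((Bad ∪ A3) ∪ (BD ∪ A5)).card : ℕ) : ℝ) ≤ ((Bad ∪ A3).card : ℝ) + (BD.card + A5.card) := by
      have h1 := card_union_le (Bad ∪ A3) (BD ∪ A5)
      have h2 := card_union_le BD A5
      have : ((Bad ∪ A3) ∪ (BD ∪ A5)).card ≤ (Bad ∪ A3).card + (BD.card + A5.card) := by omega
      exact_mod_cast this
    have h2 : (n : ℝ) / L ^ (A + 3) ≤ n / L ^ (A + 1) := by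
      apply div_le_div_of_nonneg_left hn0.le (by positivity)
      exact pow_le_pow_right₀ (by linarith) (by omega)
    have h3 : (19 : ℝ) * (n / L ^ (A + 1)) ≤ n / L ^ A := by
      rw [pow_succ, ← mul_div_assoc, div_le_div_iff₀ (by positivity) (by positivity)]
      have : (0 : ℝ) < n * L ^ A := by positivity
      nlinarith
    linarith
  · intro x hx hxE
    simp only [mem_union, not_or] at hxE
    obtain ⟨⟨g1, g2⟩, g3, g4⟩ := hxE
    rcases Nat.lt_or_ge (n / 4) x with h4 | h4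
    · left
      apply hT x hx _ g1 g2
      have h5 : n ≤ 8 * x := by omega
      have h5' : (n : ℝ) ≤ 8 * x := by exact_mod_cast h5
      rw [ha_def]
      linarith
    · right
      have hx4 : x ∈ Icc 1 (n / 4) := mem_Icc.2 ⟨(mem_Icc.1 hx).1, h4⟩
      have hHC : HC (1 / 2) 1 0 1 n (2 * x) := by
        by_contra h
        apply g3
        rw [hBD]
        exact mem_filter.2 ⟨hx4, h⟩
      have hup := up_low x n hx4 e10 (by rw [← hL]; linarith) hHC
      rw [← hL] at hup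
      have hlt : (((Bad ∪ A3).filter (fun y => E y x)).card : ℝ) < (n : ℝ) / (8 * L ^ 2) := by
        by_contra h
        apply g4
        rw [hA5]
        exact mem_filter.2 ⟨hx, not_lt.1 h⟩
      have hex : ∃ y ∈ (Ioc (n / 2) n).filter (fun y => E y x), y ∉ (Bad ∪ A3).filter (fun y => E y x) := by
        by_contra hcon
        push Not at hcon
        have h1 : ((Ioc (n / 2) n).filter (fun y => E y x)) ⊆ (Bad ∪ A3).filter (fun y => E y x) := hcon
        have h2 : (((Ioc (n / 2) n).filter (fun y => E y x)).card : ℝ) ≤ (((Bad ∪ A3).filter (fun y => E y x)).card : ℝ) := by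
          exact_mod_cast card_le_card h1
        linarith
      obtain ⟨y, hy1, hy2⟩ := hex
      rw [mem_filter, mem_Ioc] at hy1
      have hy3 : y ∉ Bad ∪ A3 := fun h => hy2 (mem_filter.2 ⟨h, hy1.2⟩)
      rw [mem_union, not_or] at hy3
      have hyI : y ∈ Icc 1 n := mem_Icc.2 ⟨by omega, hy1.1.2⟩
      refine ⟨y, hyI, hy1.2, hT y hyI ?_ hy3.1 hy3.2⟩
      have h5 : n ≤ 8 * y := by omega
      have h5' : (n : ℝ) ≤ 8 * y := by exact_mod_cast h5
      rw [ha_def]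
      linarith

end Pool.Agent.Helper255.GG
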