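import Pool.Agent.Helper255.GG.Up
import Pool.Agent.TH935.GF
import Pool.Agent.TH935.DF4

/-! Almost all vertices have a positive proportion of the vertices at distance two. -/

set_option autoImplicit false

open Finset

namespace Pool.Agent.Helper255.GG

open Pool.Agent.W93.PG (WinP cnt)
open Pool.Agent.H560R3.GB (sing)
open Pool.Agent.W93.GB (dv sing_eq one_le_dv one_le_prod_dv C2_half one_le_sing)

/-- the local factors of the vertex are those of the singular series -/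
lemma G_le_sing (x : ℕ) : G x ≤ Real.exp 2 * sing (2 * x) := by
  classical
  set S := x.primeFactors.filter (fun p => 5 ≤ p) with hS
  have h5 : ∀ p ∈ S, 5 ≤ p := fun p hp => (mem_filter.1 hp).2
  -- the quotient of the factors
  have h1 : ∀ p ∈ S, ((p : ℝ) - 3) / ((p : ℝ) - 4) ≤ dv p * Real.exp (2 / ((p : ℝ) - 4) - 2 / ((p : ℝ) - 3)) := by
    intro p hp
    have hp5 : (5 : ℝ) ≤ p := by exact_mod_cast h5 p hp
    have a1 : (0 : ℝ) < (p : ℝ) - 4 := by linarith
    have a2 : (0 : ℝ) < (p : ℝ) - 3 := by linarith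
    have a3 : (0 : ℝ) < (p : ℝ) - 2 := by linarith
    have a4 : (0 : ℝ) < (p : ℝ) - 1 := by linarith
    have h2 : 1 + 2 / (((p : ℝ) - 1) * ((p : ℝ) - 4)) ≤ Real.exp (2 / ((p : ℝ) - 4) - 2 / ((p : ℝ) - 3)) := by
      have h3 : 2 / (((p : ℝ) - 1) * ((p : ℝ) - 4)) ≤ 2 / ((p : ℝ) - 4) - 2 / ((p : ℝ) - 3) := by
        have e : 2 / ((p : ℝ) - 4) - 2 / ((p : ℝ) - 3) = 2 / (((p : ℝ) - 3) * ((p : ℝ) - 4)) := by
          field_simp
          ring
        rw [e]
        apply div_le_div_of_nonneg_left (by norm_num) (by positivity)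
        nlinarith
      have := Real.add_one_le_exp (2 / ((p : ℝ) - 4) - 2 / ((p : ℝ) - 3))
      linarith
    have h4 : ((p : ℝ) - 3) / ((p : ℝ) - 4) = dv p * (1 + 2 / (((p : ℝ) - 1) * ((p : ℝ) - 4))) := by
      unfold dv
      field_simp
      ring
    rw [h4]
    exact mul_le_mul_of_nonneg_left h2 (le_trans zero_le_one (one_le_dv p (by have := h5 p hp; omega)))
  have h2 : G x ≤ (∏ p ∈ S, dv p) * Real.exp (∑ p ∈ S, (2 / ((p : ℝ) - 4) - 2 / ((p : ℝ) - 3))) := by
    rw [Real.exp_sum, ← prod_mul_distrib]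
    unfold G
    apply Finset.prod_le_prod
    · intro p hp
      exact le_trans zero_le_one (one_le_gfac p (h5 p hp))
    · exact h1
  have h3 : ∑ p ∈ S, (2 / ((p : ℝ) - 4) - 2 / ((p : ℝ) - 3)) ≤ 2 := by
    have h4 : ∀ K : ℕ, ∑ p ∈ Ico 5 (5 + K), (2 / ((p : ℝ) - 4) - 2 / ((p : ℝ) - 3)) = 2 - 2 / ((K : ℝ) + 1) := by
      intro K
      induction K with
      | zero => norm_num
      | succ K ih =>
        rw [← Nat.add_assoc, Finset.sum_Ico_succ_top (by omega), ih]
        push_cast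
        have e1 : (5 : ℝ) + K - 4 = K + 1 := by ring
        have e2 : (5 : ℝ) + K - 3 = K + 1 + 1 := by ring
        rw [e1, e2]
        ring
    have h5' : S ⊆ Ico 5 (5 + (x + 1)) := by
      intro p hp
      rw [mem_Ico]
      have := h5 p hp
      have := Nat.le_of_mem_primeFactors (mem_filter.1 hp).1
      omega
    have h6 : ∑ p ∈ S, (2 / ((p : ℝ) - 4) - 2 / ((p : ℝ) - 3)) ≤
        ∑ p ∈ Ico 5 (5 + (x + 1)), (2 / ((p : ℝ) - 4) - 2 / ((p : ℝ) - 3)) := by
      apply sum_le_sum_of_subset_of_nonneg h5'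
      intro p hp _
      rw [mem_Ico] at hp
      have hp5 : (5 : ℝ) ≤ p := by exact_mod_cast hp.1
      rw [sub_nonneg]
      apply div_le_div_of_nonneg_left (by norm_num) (by linarith) (by linarith)
    rw [h4] at h6
    have : (0 : ℝ) ≤ 2 / (((x + 1 : ℕ) : ℝ) + 1) := by positivity
    linarith
  have h4 : ∏ p ∈ S, dv p ≤ sing (2 * x) := by
    rw [sing_eq]
    rcases Nat.eq_zero_or_pos x with h0 | h0
    · subst h0
      have := C2_half
      simp [hS]
      linarith
    have hsub : S ⊆ (2 * x).primeFactors.filter (fun p => 2 < p) := by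
      intro p hp
      rw [hS, mem_filter, Nat.mem_primeFactors] at hp
      rw [mem_filter, Nat.mem_primeFactors]
      exact ⟨⟨hp.1.1, hp.1.2.1.mul_left 2, by omega⟩, by omega⟩
    rw [← Finset.prod_sdiff hsub]
    have g1 := one_le_prod_dv S (fun p hp => by have := h5 p hp; omega)
    have g2 := one_le_prod_dv ((2 * x).primeFactors.filter (fun p => 2 < p) \ S)
      (fun p hp => (mem_filter.1 (Finset.mem_sdiff.1 hp).1).2)
    have g3 := C2_half
    have g4 : (1 : ℝ) ≤ 2 * Pool.Agent.H560R3.GB.C₂ := by linarith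
    have g5 : 1 ≤ 2 * Pool.Agent.H560R3.GB.C₂ * ∏ p ∈ (2 * x).primeFactors.filter (fun p => 2 < p) \ S, dv p :=
      one_le_mul_of_one_le_of_one_le g4 g2
    nlinarith
  have h5'' : 0 ≤ ∏ p ∈ S, dv p := le_trans zero_le_one (one_le_prod_dv S (fun p hp => by have := h5 p hp; omega))
  calc G x ≤ (∏ p ∈ S, dv p) * Real.exp (∑ p ∈ S, (2 / ((p : ℝ) - 4) - 2 / ((p : ℝ) - 3))) := h2
    _ ≤ sing (2 * x) * Real.exp 2 :=
        mul_le_mul h4 (Real.exp_le_exp.2 h3) (Real.exp_pos _).le (le_trans zero_le_one (one_le_sing _))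
    _ = _ := mul_comm _ _

open Pool.Agent.TH935.DF (HC cc) in
/-- few exceptional differences -/
theorem badD_few (U : ℕ) : ∃ n₀ : ℕ, ∀ n : ℕ, n₀ ≤ n → ∀ S : Finset ℕ, S ⊆ Icc 1 (n / 4) →
    (∀ x ∈ S, ¬ HC (1 / 2) 1 0 1 n (2 * x)) → (S.card : ℝ) ≤ n / Real.log n ^ U := by
  classical
  obtain ⟨N₀, h⟩ := Pool.Agent.TH935.DF.fam_c 1 1 0 1 1 U (1 / 2) (by norm_num) le_rfl
  obtain ⟨n1, hn1⟩ := Pool.Agent.H373R2.T7.ev_L' 8
  refine ⟨max N₀ (max n1 8), fun n hn S hS hb => ?_⟩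
  have b1 : N₀ ≤ n := (le_max_left _ _).trans hn
  have b2 : n1 ≤ n := ((le_max_left _ _).trans (le_max_right _ _)).trans hn
  have b3 : 8 ≤ n := ((le_max_right _ _).trans (le_max_right _ _)).trans hn
  have e1 := hn1 n b2
  have hcard := h n b1 (n / 4) (fun m => 2 * (m : ℤ)) (fun m hm => ?_) ?_ S hS (fun m hm => ?_)
  · refine hcard.trans ?_
    apply div_le_div_of_nonneg_right _ (by positivity)
    exact_mod_cast Nat.div_le_self n 4
  · rw [mem_Icc] at hm
    have h1 : 2 * (m : ℤ) ≤ n := by omega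
    rw [abs_of_nonneg (by positivity)]
    push_cast
    linarith
  · have he : Pool.Agent.H373R2.T7.energy 1 (n / 4) (fun m => 2 * (m : ℤ)) ≤ n / 4 := by
      unfold Pool.Agent.H373R2.T7.energy
      have : (((Fintype.piFinset fun _ : Fin 1 => Icc 1 (n / 4)) ×ˢ (Fintype.piFinset fun _ : Fin 1 => Icc 1 (n / 4))).filter
          (fun q => ∑ i, (fun m : ℕ => 2 * (m : ℤ)) (q.1 i) = ∑ i, (fun m : ℕ => 2 * (m : ℤ)) (q.2 i))).card ≤ (Icc 1 (n / 4)).card := by
        apply card_le_card_of_injOn (fun q => q.1 0)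
        · intro q hq
          simp only [coe_filter, Set.mem_ofPred_eq, mem_product, Fintype.mem_piFinset] at hq
          exact hq.1.1 0
        · intro a ha b hb hab
          simp only [coe_filter, Set.mem_ofPred_eq, mem_product, Fintype.mem_piFinset, Fin.sum_univ_one] at ha hb hab
          have h1 : a.1 = b.1 := by
            ext i
            rw [Subsingleton.elim i 0]
            exact hab
          have h2 : a.2 = b.2 := by
            ext i
            rw [Subsingleton.elim i 0]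
            omega
          exact Prod.ext h1 h2
      rwa [Nat.card_Icc, Nat.add_sub_cancel] at this
    have he' : (Pool.Agent.H373R2.T7.energy 1 (n / 4) (fun m => 2 * (m : ℤ)) : ℝ) ≤ ((n / 4 : ℕ) : ℝ) := by exact_mod_cast he
    have hn0 : (0 : ℝ) ≤ n := Nat.cast_nonneg _
    have h3 : n ≤ 8 * (n / 4) := by omega
    have h3' : (n : ℝ) ≤ 8 * ((n / 4 : ℕ) : ℝ) := by exact_mod_cast h3
    have h4 : (0 : ℝ) ≤ ((n / 4 : ℕ) : ℝ) := Nat.cast_nonneg _
    calc (Pool.Agent.H373R2.T7.energy 1 (n / 4) (fun m => 2 * (m : ℤ)) : ℝ) * n ≤ ((n / 4 : ℕ) : ℝ) * n :=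
          mul_le_mul_of_nonneg_right he' hn0
      _ ≤ ((n / 4 : ℕ) : ℝ) * (8 * ((n / 4 : ℕ) : ℝ)) := mul_le_mul_of_nonneg_left h3' h4
      _ = 8 * ((n / 4 : ℕ) : ℝ) ^ 2 := by ring
      _ ≤ Real.log n * ((n / 4 : ℕ) : ℝ) ^ 2 := mul_le_mul_of_nonneg_right e1 (by positivity)
      _ = Real.log n ^ 1 * ((n / 4 : ℕ) : ℝ) ^ (2 * 1) := by ring
  · have h1 := hS hm
    rw [mem_Icc] at h1
    refine ⟨show (0 : ℤ) < 2 * (m : ℤ) by omega, ⟨m, by ring⟩, ?_⟩
    have h2 : (2 * (m : ℤ)).toNat = 2 * m := by omega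
    rw [h2]
    exact hb m hm

open Pool.Agent.TH935.DF (HC cc) in
/-- the upper neighbours of a small typical vertex -/
lemma up_low (x n : ℕ) (hx : x ∈ Icc 1 (n / 4)) (hn : 8 ≤ n) (hL : 8 ≤ Real.log n) (hw : HC (1 / 2) 1 0 1 n (2 * x)) :
    (n : ℝ) / (8 * Real.log n ^ 2) ≤ (((Ioc (n / 2) n).filter (fun y => E y x)).card : ℝ) := by
  classical
  rw [mem_Icc] at hx
  have h1 := hw 1 0 le_rfl (by norm_num) (Nat.coprime_one_right 0) (Nat.coprime_one_right _) (n / 2 - x) (n - x)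
    (by omega) (by omega) (by
      have h2 : n ≤ 8 * ((n - x) - (n / 2 - x)) := by omega
      have h3 : ((n - x : ℕ) : ℝ) - ((n / 2 - x : ℕ) : ℝ) = (((n - x) - (n / 2 - x) : ℕ) : ℝ) := by
        rw [Nat.cast_sub (by omega : n / 2 - x ≤ n - x)]
      rw [h3, pow_one, div_le_iff₀ (by linarith)]
      have h2' : (n : ℝ) ≤ 8 * (((n - x) - (n / 2 - x) : ℕ) : ℝ) := by exact_mod_cast h2
      have h4 : (0 : ℝ) ≤ (((n - x) - (n / 2 - x) : ℕ) : ℝ) := Nat.cast_nonneg _
      nlinarith)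
  have hCnt : Pool.Agent.W93.PP.Cnt 1 (2 * x) = 1 := by
    unfold Pool.Agent.W93.PP.Cnt
    simp
  rw [hCnt, abs_le] at h1
  have hcc : cc 1 0 (2 * x) (n / 2 - x) (n - x) ≤ ((Ioc (n / 2) n).filter (fun y => E y x)).card := by
    unfold cc
    apply card_le_card_of_injOn (fun q => q + x)
    · intro q hq
      simp only [coe_filter, Set.mem_ofPred_eq, mem_Ioc] at hq
      simp only [coe_filter, Set.mem_ofPred_eq, mem_Ioc]
      obtain ⟨⟨h2, h3⟩, h4, h5, _⟩ := hq
      refine ⟨⟨by omega, by omega⟩, by have := h4.pos; omega, ?_, ?_⟩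
      · have : q + x + x = q + 2 * x := by omega
        rw [this]
        exact h5
      · have : q + x - x = q := by omega
        rw [this]
        exact h4
    · intro a ha b hb hab
      simp only at hab
      omega
  have hcc' : (cc 1 0 (2 * x) (n / 2 - x) (n - x) : ℝ) ≤ (((Ioc (n / 2) n).filter (fun y => E y x)).card : ℝ) := by
    exact_mod_cast hcc
  refine le_trans ?_ hcc'
  have hs := one_le_sing (2 * x)
  have h3 : ((n - x : ℕ) : ℝ) - ((n / 2 - x : ℕ) : ℝ) = (((n - x) - (n / 2 - x) : ℕ) : ℝ) := by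
    rw [Nat.cast_sub (by omega : n / 2 - x ≤ n - x)]
  rw [h3] at h1
  have h2 : n ≤ 2 * ((n - x) - (n / 2 - x)) := by omega
  have h2' : (n : ℝ) ≤ 2 * (((n - x) - (n / 2 - x) : ℕ) : ℝ) := by exact_mod_cast h2
  have h6 : (n : ℝ) / (8 * Real.log n ^ 2) ≤
      1 / 2 * (sing (2 * x) * (((n - x) - (n / 2 - x) : ℕ) : ℝ) / (((1 : ℕ) : ℝ) * Real.log n ^ 2)) := by
    have h7 : (n : ℝ) ≤ 2 * (sing (2 * x) * (((n - x) - (n / 2 - x) : ℕ) : ℝ)) := by
      have : (0 : ℝ) ≤ (((n - x) - (n / 2 - x) : ℕ) : ℝ) := Nat.cast_nonneg _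
      nlinarith
    have hLL : (0 : ℝ) < Real.log n ^ 2 := by positivity
    rw [Nat.cast_one, one_mul, div_le_iff₀ (by positivity)]
    have e : 1 / 2 * (sing (2 * x) * (((n - x) - (n / 2 - x) : ℕ) : ℝ) / Real.log n ^ 2) * (8 * Real.log n ^ 2) =
        4 * (sing (2 * x) * (((n - x) - (n / 2 - x) : ℕ) : ℝ)) := by
      field_simp
      ring
    rw [e]
    linarith [Nat.cast_nonneg (α := ℝ) n]
  linarith [h1.1]

/-- few exceptional vertices -/
theorem bad_few (U : ℕ) : ∃ n₀ : ℕ, ∀ n : ℕ, n₀ ≤ n → ∀ S : Finset ℕ, S ⊆ Icc 1 n →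
    (∀ y ∈ S, ¬ WinP (1 / 2) 1 (2 * y)) → (S.card : ℝ) ≤ n / Real.log n ^ U := by
  classical
  obtain ⟨N₀, h⟩ := Pool.Agent.TH935.GF.fam_win 1 2 0 1 U 0 le_rfl (1 / 2) (by norm_num) (WinP (1 / 2) 1)
    (fun _ _ _ h => h)
  refine ⟨N₀, fun n hn S hS hb => h n hn n (fun m => 2 * m) (fun m hm => ?_) ?_ S hS hb⟩
  · rw [mem_Icc] at hm
    exact ⟨by omega, Dvd.intro m rfl⟩
  · have he : Pool.Agent.H560R3.GB.energy 1 n (fun m => 2 * m) ≤ n := by
      unfold Pool.Agent.H560R3.GB.energy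
      have : (((Fintype.piFinset fun _ : Fin 1 => Icc 1 n) ×ˢ (Fintype.piFinset fun _ : Fin 1 => Icc 1 n)).filter
          (fun q => ∑ i, (fun m => 2 * m) (q.1 i) = ∑ i, (fun m => 2 * m) (q.2 i))).card ≤ (Icc 1 n).card := by
        apply card_le_card_of_injOn (fun q => q.1 0)
        · intro q hq
          simp only [coe_filter, Set.mem_ofPred_eq, mem_product, Fintype.mem_piFinset] at hq
          exact hq.1.1 0
        · intro a ha b hb hab
          simp only [coe_filter, Set.mem_ofPred_eq, mem_product, Fintype.mem_piFinset, Fin.sum_univ_one] at ha hb hab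
          have h1 : a.1 = b.1 := by
            ext i
            rw [Subsingleton.elim i 0]
            exact hab
          have h2 : a.2 = b.2 := by
            ext i
            rw [Subsingleton.elim i 0]
            omega
          exact Prod.ext h1 h2
      rwa [Nat.card_Icc, Nat.add_sub_cancel] at this
    have he' : (Pool.Agent.H560R3.GB.energy 1 n (fun m => 2 * m) : ℝ) ≤ n := by exact_mod_cast he
    have hn0 : (0 : ℝ) ≤ n := Nat.cast_nonneg _
    calc (Pool.Agent.H560R3.GB.energy 1 n (fun m => 2 * m) : ℝ) * n ≤ n * n := mul_le_mul_of_nonneg_right he' hn0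
      _ = Real.log n ^ 0 * (n : ℝ) ^ (2 * 1) := by ring

/-- the downward neighbours `y` with `x - y ≤ k` of a typical vertex -/
lemma deg_low (x k : ℕ) (hk : k < x) (hk0 : 0 < k) (hw : WinP (1 / 2) 1 (2 * x))
    (hl : ((2 * x : ℕ) : ℝ) / Real.log (2 * x : ℕ) ≤ k) :
    1 / 2 * (sing (2 * x) * (k / Real.log (2 * x : ℕ) ^ 2)) ≤ (((Ico (x - k) x).filter (fun y => E x y)).card : ℝ) := by
  classical
  have h1 := hw 0 k hk0 (by omega) (by
    rw [pow_one, Nat.cast_zero, sub_zero]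
    exact hl)
  rw [Nat.cast_zero, sub_zero, abs_le] at h1
  have hcnt : cnt (2 * x) 0 k ≤ ((Ico (x - k) x).filter (fun y => E x y)).card := by
    unfold cnt
    apply card_le_card_of_injOn (fun q => x - q)
    · intro q hq
      simp only [coe_filter, Set.mem_ofPred_eq, mem_Ioc] at hq
      simp only [coe_filter, Set.mem_ofPred_eq, mem_Ico]
      obtain ⟨⟨h2, h3⟩, h4, h5⟩ := hq
      refine ⟨⟨by omega, by omega⟩, by omega, ?_, ?_⟩
      · have : x + (x - q) = 2 * x - q := by omega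
        rw [this]
        exact h5
      · have : x - (x - q) = q := by omega
        rw [this]
        exact h4
    · intro a ha b hb hab
      simp only [coe_filter, Set.mem_ofPred_eq, mem_Ioc] at ha hb
      simp only at hab
      omega
  have hcnt' : (cnt (2 * x) 0 k : ℝ) ≤ (((Ico (x - k) x).filter (fun y => E x y)).card : ℝ) := by exact_mod_cast hcnt
  refine le_trans ?_ hcnt'
  have h2 : sing (2 * x) * ((k : ℝ) / Real.log (2 * x : ℕ) ^ 2) = sing (2 * x) * k / Real.log ((2 * x : ℕ) : ℝ) ^ 2 := by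
    ring
  rw [h2]
  linarith [h1.1]

/-- the number of the paths `x > y > z` from a typical vertex -/
lemma paths_low (a n : ℝ) (x nn : ℕ) (L : ℝ) (hnn : n = nn) (ha : 0 < a) (hax : a * n ≤ x) (hxn : x ≤ nn)
    (hL : L = Real.log n) (hL1 : 64 / a ≤ L) (hn : 16 / a ≤ n) (hn3 : 3 ≤ n)
    (h8 : ∀ y : ℕ, a * n / 2 ≤ y → 8 ≤ Real.log (2 * y : ℕ))
    (hw : WinP (1 / 2) 1 (2 * x)) (Bad : Finset ℕ)
    (hBad : ∀ y ∈ Icc 1 nn, y ∉ Bad → WinP (1 / 2) 1 (2 * y))
    (hfew : ((Bad.filter (fun y => E x y)).card : ℝ) ≤ n / L ^ 3) :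
    sing (2 * x) * (a * n / (64 * L ^ 2)) ^ 2 ≤ ((∑ z ∈ Ico 1 x, N2 x z : ℕ) : ℝ) := by
  classical
  have hn0 : 0 < n := by linarith
  have hL0 : 0 < L := lt_of_lt_of_le (by positivity) hL1
  have han : 16 ≤ a * n := by
    rw [div_le_iff₀ ha] at hn
    linarith
  have hlog2 : ∀ y : ℕ, 1 ≤ y → y ≤ nn → Real.log ((2 * y : ℕ) : ℝ) ≤ 2 * L := by
    intro y hy1 hy2
    have h1 : ((2 * y : ℕ) : ℝ) ≤ n ^ 2 := by
      have : (y : ℝ) ≤ n := by rw [hnn]; exact_mod_cast hy2
      push_cast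
      nlinarith
    have h2 := Real.log_le_log (by
      have : (1 : ℝ) ≤ y := by exact_mod_cast hy1
      push_cast
      linarith) h1
    rw [Real.log_pow, ← hL] at h2
    exact_mod_cast h2
  -- lower bound for a typical vertex
  have hdeg : ∀ (y : ℕ) (b : ℝ), 4 ≤ b → y ≤ nn → b ≤ y → a * n / 2 ≤ y → WinP (1 / 2) 1 (2 * y) →
      sing (2 * y) * (b / (32 * L ^ 2)) ≤ (((Ico (y - y / 2) y).filter (fun t => E y t)).card : ℝ) := by
    intro y b hb hy1 hyb hy2 hwy
    have hy8 : (8 : ℝ) ≤ y := by linarith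
    have hy8' : 8 ≤ y := by exact_mod_cast hy8
    have h1 : (y : ℝ) ≤ 2 * ((y / 2 : ℕ) : ℝ) + 1 := by
      have : y ≤ 2 * (y / 2) + 1 := by omega
      exact_mod_cast this
    have hhalf : b / 4 ≤ ((y / 2 : ℕ) : ℝ) := by linarith
    have h2 := deg_low y (y / 2) (by omega) (by omega) hwy (by
      have h8' := h8 y hy2
      rw [div_le_iff₀ (by linarith)]
      have h9 : ((y / 2 : ℕ) : ℝ) * 8 ≤ ((y / 2 : ℕ) : ℝ) * Real.log (2 * y : ℕ) :=
        mul_le_mul_of_nonneg_left h8' (Nat.cast_nonneg _)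
      refine le_trans ?_ h9
      push_cast
      linarith)
    refine le_trans ?_ h2
    have h3 := hlog2 y (by omega) hy1
    have h4 : 0 < Real.log ((2 * y : ℕ) : ℝ) := Real.log_pos (by push_cast; linarith)
    have h5 : Real.log ((2 * y : ℕ) : ℝ) ^ 2 ≤ (2 * L) ^ 2 := pow_le_pow_left₀ h4.le h3 2
    have h6 : (b / 4) / (2 * L) ^ 2 ≤ ((y / 2 : ℕ) : ℝ) / Real.log ((2 * y : ℕ) : ℝ) ^ 2 := by
      apply div_le_div₀ (Nat.cast_nonneg _) hhalf (by positivity) h5
    have e : sing (2 * y) * (b / (32 * L ^ 2)) = 1 / 2 * (sing (2 * y) * ((b / 4) / (2 * L) ^ 2)) := by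
      field_simp
      ring
    rw [e]
    have hs1 := one_le_sing (2 * y)
    have := mul_le_mul_of_nonneg_left h6 (le_trans zero_le_one hs1)
    linarith
  -- the neighbours of `x` which are typical
  set Y := ((Ico (x - x / 2) x).filter (fun y => E x y)).filter (fun y => y ∉ Bad) with hY
  have hsx := one_le_sing (2 * x)
  have hYlow : sing (2 * x) * (a * n / (64 * L ^ 2)) ≤ (Y.card : ℝ) := by
    have h1 := hdeg x (a * n) (by linarith) hxn hax (by linarith) hw
    have h2 : ((Ico (x - x / 2) x).filter (fun y => E x y)).card ≤ Y.card + (Bad.filter (fun y => E x y)).card := by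
      rw [← card_filter_add_card_filter_not (s := (Ico (x - x / 2) x).filter (fun y => E x y)) (fun y => y ∉ Bad)]
      apply Nat.add_le_add le_rfl
      apply card_le_card
      intro y hy
      simp only [mem_filter, not_not] at hy ⊢
      exact ⟨hy.2, hy.1.2⟩
    have h2' : (((Ico (x - x / 2) x).filter (fun y => E x y)).card : ℝ) ≤ Y.card + (Bad.filter (fun y => E x y)).card := by
      exact_mod_cast h2
    have h3 : n / L ^ 3 ≤ a * n / (64 * L ^ 2) := by
      rw [div_le_div_iff₀ (by positivity) (by positivity)]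
      rw [div_le_iff₀ ha] at hL1
      have : 0 ≤ n * L ^ 2 := by positivity
      nlinarith
    have e : a * n / (32 * L ^ 2) = a * n / (64 * L ^ 2) + a * n / (64 * L ^ 2) := by
      field_simp
      norm_num
    rw [e] at h1
    have h4 : 0 ≤ a * n / (64 * L ^ 2) := by positivity
    nlinarith
  have hYdeg : ∀ y ∈ Y, a * n / (64 * L ^ 2) ≤ (((Ico 1 y).filter (fun t => E y t)).card : ℝ) := by
    intro y hy
    simp only [hY, mem_filter, mem_Ico] at hy
    obtain ⟨⟨⟨h1, h2⟩, _⟩, h3⟩ := hy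
    have hx16 : (16 : ℝ) ≤ x := by linarith
    have hx16' : 16 ≤ x := by exact_mod_cast hx16
    have h4 : x ≤ 2 * y := by omega
    have h4' : (x : ℝ) ≤ 2 * y := by exact_mod_cast h4
    have h5 := hdeg y (a * n / 2) (by linarith) (by omega) (by linarith) (by linarith)
      (hBad y (mem_Icc.2 ⟨by omega, by omega⟩) h3)
    have h6 : ((Ico (y - y / 2) y).filter (fun t => E y t)).card ≤ ((Ico 1 y).filter (fun t => E y t)).card := by
      apply card_le_card
      apply filter_subset_filter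
      apply Ico_subset_Ico _ le_rfl
      omega
    have h6' : (((Ico (y - y / 2) y).filter (fun t => E y t)).card : ℝ) ≤ (((Ico 1 y).filter (fun t => E y t)).card : ℝ) := by
      exact_mod_cast h6
    refine le_trans ?_ (h5.trans h6')
    have e : a * n / (64 * L ^ 2) = 1 * (a * n / 2 / (32 * L ^ 2)) := by
      field_simp
      norm_num
    rw [e]
    exact mul_le_mul_of_nonneg_right (one_le_sing (2 * y)) (by positivity)
  -- counting the paths
  have hcount : ∑ y ∈ Y, ((Ico 1 y).filter (fun t => E y t)).card ≤ ∑ z ∈ Ico 1 x, N2 x z := by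
    have e1 : ∑ y ∈ Y, ((Ico 1 y).filter (fun t => E y t)).card = ∑ y ∈ Y, ∑ z ∈ Ico 1 x, (if z < y ∧ E y z then 1 else 0) := by
      apply sum_congr rfl
      intro y hy
      simp only [hY, mem_filter, mem_Ico] at hy
      rw [← sum_filter, sum_const, smul_eq_mul, mul_one]
      congr 1
      ext z
      simp only [mem_filter, mem_Ico]
      constructor
      · rintro ⟨⟨h1, h2⟩, h3⟩
        exact ⟨⟨h1, by omega⟩, h2, h3⟩
      · rintro ⟨⟨h1, _⟩, h2, h3⟩
        exact ⟨⟨h1, h2⟩, h3⟩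
    rw [e1, sum_comm]
    apply sum_le_sum
    intro z _
    unfold N2
    rw [← sum_filter, sum_const, smul_eq_mul, mul_one]
    apply card_le_card
    intro y hy
    simp only [hY, mem_filter, mem_Ico] at hy
    rw [mem_filter, mem_Ioo]
    exact ⟨⟨hy.2.1, hy.1.1.1.2⟩, hy.1.1.2, hy.2.2⟩
  have hcount' : ((∑ y ∈ Y, ((Ico 1 y).filter (fun t => E y t)).card : ℕ) : ℝ) ≤ ((∑ z ∈ Ico 1 x, N2 x z : ℕ) : ℝ) := by
    exact_mod_cast hcount
  refine le_trans ?_ hcount'
  push_cast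
  have h0 : 0 ≤ a * n / (64 * L ^ 2) := by positivity
  calc sing (2 * x) * (a * n / (64 * L ^ 2)) ^ 2 = (sing (2 * x) * (a * n / (64 * L ^ 2))) * (a * n / (64 * L ^ 2)) := by ring
    _ ≤ Y.card * (a * n / (64 * L ^ 2)) := mul_le_mul_of_nonneg_right hYlow h0
    _ = ∑ y ∈ Y, (a * n / (64 * L ^ 2)) := by rw [sum_const, nsmul_eq_mul]
    _ ≤ _ := sum_le_sum hYdeg

end Pool.Agent.Helper255.GG
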