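import Pool.Agent.Helper255.GG.Up3
import Pool.Agent.Helper255.GG.Low
import Pool.Agent.Y840.CT.Low

/-! Chen's theorem, the neighbours of a vertex. -/

set_option autoImplicit false

open Finset Filter

namespace Pool.Agent.Helper255.GG

open Pool.Agent.Y840.CT (Rough Good Vp Sys rho genI Vp_low)
open Pool.Agent.H560R3.GB (sing C₂)
open Pool.Agent.W93.GB (dv sing_eq one_le_dv one_le_prod_dv C2_half one_le_sing)

lemma rho_single (h : ℤ) (q : ℕ) : rho {h} q = if (q : ℤ) ∣ h then 1 else 2 := by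
  unfold rho
  rw [image_insert, image_singleton, Int.zero_emod]
  split_ifs with hd
  · rw [Int.emod_eq_zero_of_dvd hd]
    simp
  · rw [card_pair]
    intro he
    exact hd (Int.dvd_of_emod_eq_zero he.symm)

/-- the sieve product and the singular series -/
lemma Vp_sing (x X : ℕ) (hx : 1 ≤ x) (hX : x ≤ X) (h : ℤ) (hh : h.natAbs = 2 * x) :
    Vp {h} X * (2 * C₂) = Vp {2} X * sing (2 * x) := by
  classical
  have hdv : ∀ q : ℕ, (q : ℤ) ∣ h ↔ q ∣ 2 * x := by
    intro q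
    rw [← hh, Int.natCast_dvd]
  have hfac : ∀ q ∈ (Icc 1 X).filter Nat.Prime, (1 - (rho {h} q : ℝ) / q) =
      (1 - (rho {2} q : ℝ) / q) * (if q ∣ x ∧ 2 < q then dv q else 1) := by
    intro q hq
    have hqp := (mem_filter.1 hq).2
    have hq2 := hqp.two_le
    rw [rho_single, rho_single]
    rcases Nat.lt_or_ge 2 q with h3 | h3
    · have hq3 : (3 : ℝ) ≤ q := by exact_mod_cast h3
      have hn2 : ¬ (q : ℤ) ∣ 2 := by
        intro hd
        have : q ∣ 2 := by exact_mod_cast hd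
        have := Nat.le_of_dvd (by norm_num) this
        omega
      rw [if_neg hn2]
      have hqx : (q : ℤ) ∣ h ↔ q ∣ x := by
        rw [hdv]
        constructor
        · intro hd
          rcases hqp.dvd_mul.1 hd with h4 | h4
          · have := Nat.le_of_dvd (by norm_num) h4
            omega
          · exact h4
        · intro hd
          exact hd.mul_left 2
      by_cases hx : q ∣ x
      · rw [if_pos (hqx.2 hx), if_pos ⟨hx, h3⟩]
        unfold dv
        have h1 : (0 : ℝ) < (q : ℝ) - 2 := by linarith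
        push_cast
        field_simp
      · rw [if_neg (fun h => hx (hqx.1 h)), if_neg (fun h => hx h.1), mul_one]
    · have : q = 2 := by omega
      subst this
      rw [if_pos ((hdv 2).2 (Dvd.intro x rfl)), if_pos (by norm_num), if_neg (by omega), mul_one]
  have h1 : Vp {h} X = Vp {2} X * ∏ p ∈ (2 * x).primeFactors.filter (fun p => 2 < p), dv p := by
    unfold Vp
    rw [prod_congr rfl hfac, prod_mul_distrib]
    congr 1
    rw [← prod_filter, filter_filter]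
    apply prod_congr
    · ext q
      simp only [mem_filter, mem_Icc, Nat.mem_primeFactors]
      constructor
      · rintro ⟨⟨a, b⟩, c, d, e⟩
        exact ⟨⟨c, d.mul_left 2, by omega⟩, e⟩
      · rintro ⟨⟨a, b, c⟩, d⟩
        have hqx : q ∣ x := by
          rcases a.dvd_mul.1 b with h4 | h4
          · have := Nat.le_of_dvd (by norm_num) h4
            omega
          · exact h4
        exact ⟨⟨a.one_le, (Nat.le_of_dvd (by omega) hqx).trans hX⟩, a, hqx, d⟩
    · intro q _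
      rfl
  rw [h1, sing_eq]
  ring

lemma sys_single (x n : ℕ) (hx : 1 ≤ x) (hxn : x ≤ n) (h : ℤ) (hh : h.natAbs = 2 * x) : Sys 1 (2 * n) {h} where
  card := by simp
  size := by
    intro h' hh'
    rw [mem_singleton] at hh'
    subst hh'
    refine ⟨by omega, ?_⟩
    rw [Int.abs_eq_natAbs, hh]
    exact_mod_cast (by omega : 2 * x ≤ 2 * n)
  loc := by
    intro q hq
    rw [rho_single]
    have h2 := hq.two_le
    split_ifs with hd
    · omega
    · rcases Nat.lt_or_ge 2 q with h3 | h3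
      · exact h3
      · exfalso
        have : q = 2 := by omega
        subst this
        apply hd
        rw [Int.natCast_dvd, hh]
        exact Dvd.intro x rfl

/-- `x > y` are adjacent: `x - y` is a prime and `x + y` is a product of at most two primes, none of them small -/
def E3 (n x y : ℕ) : Prop := y < x ∧ (x - y).Prime ∧ 2 * n < (x - y) ^ 10 ∧
  Rough 2 (((2 * n : ℕ) : ℝ) ^ (1 / 9 : ℝ)) ((x + y : ℕ) : ℤ)

lemma rough_pow {n : ℕ} {k : ℤ} (h : Rough 2 (((2 * n : ℕ) : ℝ) ^ (1 / 9 : ℝ)) k) {p : ℕ} (hp : p.Prime)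
    (hd : (p : ℤ) ∣ k) : 2 * n < p ^ 10 := by
  have h1 := h.2.2 p hp hd
  have hp1 : (1 : ℝ) ≤ p := by exact_mod_cast hp.one_le
  have h2 : ((2 * n : ℕ) : ℝ) < (p : ℝ) ^ 9 := by
    have h3 : (0 : ℝ) ≤ ((2 * n : ℕ) : ℝ) ^ (1 / 9 : ℝ) := by positivity
    have h4 := pow_lt_pow_left₀ h1 h3 (by norm_num : (9 : ℕ) ≠ 0)
    rwa [← Real.rpow_natCast (((2 * n : ℕ) : ℝ) ^ (1 / 9 : ℝ)), ← Real.rpow_mul (by positivity),
      show (1 / 9 : ℝ) * ((9 : ℕ) : ℝ) = 1 by norm_num, Real.rpow_one] at h4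
  have h3 : (p : ℝ) ^ 9 ≤ (p : ℝ) ^ 10 := pow_le_pow_right₀ hp1 (by norm_num)
  have h4 : ((2 * n : ℕ) : ℝ) < ((p ^ 10 : ℕ) : ℝ) := by
    rw [Nat.cast_pow]
    exact h2.trans_le h3
  exact_mod_cast h4

open Classical in
/-- many lower neighbours -/
theorem chen_low : ∃ c : ℝ, 0 < c ∧ ∃ n₀ : ℕ, ∀ n : ℕ, n₀ ≤ n → ∀ x : ℕ, n ≤ 100 * x → x ≤ n →
    c * (G x * (n / Real.log n ^ 2)) ≤ (((Ico (x / 4) x).filter (fun y => E3 n x y)).card : ℝ) := by
  obtain ⟨t, ht, c, hc, hgen, -⟩ := genI 1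
  obtain ⟨N₁, h1⟩ := hgen (1 / 500) (by norm_num)
  obtain ⟨c0, hc0, hV⟩ := Vp_low 1
  have hC2 : (0 : ℝ) < C₂ := by linarith [C2_half]
  have he2 := Real.exp_pos 2
  refine ⟨c * (1 / 500) * (c0 / (4 * (2 * C₂ * Real.exp 2))), by positivity, max N₁ (10 ^ 6), ?_⟩
  intro n hn x hx1 hx2
  have b1 : N₁ ≤ n := (le_max_left _ _).trans hn
  have b2 : 10 ^ 6 ≤ n := (le_max_right _ _).trans hn
  have hx0 : 1 ≤ x := by omega
  have hAB : x ≤ 2 * ((x / 2 + x / 4) - x / 4) + 1 := by omega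
  have hABr : (x : ℝ) ≤ 2 * (((x / 2 + x / 4 : ℕ) : ℝ) - ((x / 4 : ℕ) : ℝ)) + 1 := by
    have e : ((x / 2 + x / 4 : ℕ) : ℝ) - ((x / 4 : ℕ) : ℝ) = ((x / 2 : ℕ) : ℝ) := by
      push_cast
      ring
    rw [e]
    have : x ≤ 2 * (x / 2) + 1 := by omega
    exact_mod_cast this
  have hnr : (10 : ℝ) ^ 6 ≤ n := by exact_mod_cast b2
  have hx1r : (n : ℝ) ≤ 100 * x := by exact_mod_cast hx1
  have hlen0 : (n : ℝ) / 250 ≤ ((x / 2 + x / 4 : ℕ) : ℝ) - ((x / 4 : ℕ) : ℝ) := by linarith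
  have hlen : (n : ℝ) / 500 ≤ ((x / 2 + x / 4 : ℕ) : ℝ) - ((x / 4 : ℕ) : ℝ) := by linarith
  have hlen2 : (1 / 500 : ℝ) * ((2 * n : ℕ) : ℝ) ≤ ((x / 2 + x / 4 : ℕ) : ℝ) - ((x / 4 : ℕ) : ℝ) := by
    push_cast at hlen0 ⊢
    linarith
  have hh : ((2 * x : ℕ) : ℤ).natAbs = 2 * x := by omega
  have hg := h1 (2 * n) (by omega) {((2 * x : ℕ) : ℤ)} (sys_single x n hx0 hx2 _ hh) _ (mem_singleton_self _)
    (x / 4) (x / 2 + x / 4) (by omega) hlen2
  -- the injection
  have hcard : (Good t (2 * n) (x / 4) (x / 2 + x / 4) {((2 * x : ℕ) : ℤ)} ((2 * x : ℕ) : ℤ)).card ≤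
      ((Ico (x / 4) x).filter (fun y => E3 n x y)).card := by
    unfold Good
    apply card_le_card_of_injOn (fun p => x - p)
    · intro p hp
      simp only [coe_filter, Set.mem_ofPred_eq, mem_Ioc] at hp
      obtain ⟨⟨a1, a2⟩, a3, -, a4, -⟩ := hp
      simp only [coe_filter, Set.mem_ofPred_eq, mem_Ico]
      have hpx : p ≤ x := by omega
      refine ⟨⟨by omega, by have := a3.pos; omega⟩, by have := a3.pos; omega, ?_, ?_, ?_⟩
      · have : x - (x - p) = p := by omega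
        rw [this]
        exact a3
      · have : x - (x - p) = p := by omega
        rw [this]
        have h5 : n ≤ 400 * p := by omega
        have h6 : 2500 ≤ p := by omega
        calc 2 * n ≤ 800 * p := by omega
          _ < p * p := by nlinarith
          _ = p ^ 2 := by ring
          _ ≤ p ^ 10 := Nat.pow_le_pow_right a3.pos (by norm_num)
      · have : ((x + (x - p) : ℕ) : ℤ) = ((2 * x : ℕ) : ℤ) - p := by omega
        rw [this]
        exact a4
    · intro a ha b hb hab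
      simp only [coe_filter, Set.mem_ofPred_eq, mem_Ioc] at ha hb
      simp only at hab
      omega
  have hcard' : ((Good t (2 * n) (x / 4) (x / 2 + x / 4) {((2 * x : ℕ) : ℤ)} ((2 * x : ℕ) : ℤ)).card : ℝ) ≤
      (((Ico (x / 4) x).filter (fun y => E3 n x y)).card : ℝ) := by exact_mod_cast hcard
  refine le_trans ?_ (hg.trans hcard')
  -- the product
  have hV2 := hV (2 * n) (by omega) {2} (by simp) (by
    intro q hq
    have h3 := (sys_single 1 n le_rfl (by omega) 2 (by norm_num)).loc q hq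
    exact h3)
  have hVs := Vp_sing x (2 * n) hx0 (by omega) ((2 * x : ℕ) : ℤ) hh
  have hGs := G_le_sing x
  have hs1 := one_le_sing (2 * x)
  have hL0 : 0 < Real.log n := Real.log_pos (by linarith)
  have hlog : Real.log ((2 * n : ℕ) : ℝ) ≤ 2 * Real.log n := by
    have h3 : Real.log ((2 * n : ℕ) : ℝ) ≤ Real.log ((n : ℝ) ^ 2) := by
      apply Real.log_le_log (by push_cast; linarith)
      push_cast
      nlinarith
    rwa [Real.log_pow] at h3
  have hlog0 : 0 < Real.log ((2 * n : ℕ) : ℝ) := Real.log_pos (by push_cast; linarith)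
  have hV3 : c0 / (4 * Real.log n ^ 2) ≤ Vp {2} (2 * n) := by
    refine le_trans ?_ hV2
    apply div_le_div_of_nonneg_left hc0.le (by positivity)
    calc Real.log ((2 * n : ℕ) : ℝ) ^ (1 + 1) ≤ (2 * Real.log n) ^ (1 + 1) := pow_le_pow_left₀ hlog0.le hlog _
      _ = 4 * Real.log n ^ 2 := by ring
  have hV4 : c0 / (4 * Real.log n ^ 2) * G x / (2 * C₂ * Real.exp 2) ≤ Vp {((2 * x : ℕ) : ℤ)} (2 * n) := by
    rw [div_le_iff₀ (by positivity)]
    calc c0 / (4 * Real.log n ^ 2) * G x ≤ Vp {2} (2 * n) * (Real.exp 2 * sing (2 * x)) := by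
          apply mul_le_mul hV3 hGs (le_trans zero_le_one (one_le_G x))
          exact le_trans (by positivity) hV3
      _ = (Vp {2} (2 * n) * sing (2 * x)) * Real.exp 2 := by ring
      _ = (Vp {((2 * x : ℕ) : ℤ)} (2 * n) * (2 * C₂)) * Real.exp 2 := by rw [hVs]
      _ = _ := by ring
  have hVnn : 0 ≤ Vp {((2 * x : ℕ) : ℤ)} (2 * n) := by
    refine le_trans ?_ hV4
    have := one_le_G x
    positivity
  calc c * (1 / 500) * (c0 / (4 * (2 * C₂ * Real.exp 2))) * (G x * (n / Real.log n ^ 2))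
      = c * (n / 500) * (c0 / (4 * Real.log n ^ 2) * G x / (2 * C₂ * Real.exp 2)) := by
        field_simp
    _ ≤ c * (n / 500) * Vp {((2 * x : ℕ) : ℤ)} (2 * n) := mul_le_mul_of_nonneg_left hV4 (by positivity)
    _ ≤ c * (((x / 2 + x / 4 : ℕ) : ℝ) - ((x / 4 : ℕ) : ℝ)) * Vp {((2 * x : ℕ) : ℤ)} (2 * n) := by
        apply mul_le_mul_of_nonneg_right _ hVnn
        exact mul_le_mul_of_nonneg_left hlen hc.le

/-- an upper neighbour -/
theorem chen_up : ∃ n₀ : ℕ, ∀ n : ℕ, n₀ ≤ n → ∀ x : ℕ, 1 ≤ x → 4 * x ≤ n → ∃ y : ℕ, n / 2 < y ∧ y ≤ n ∧ E3 n y x := by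
  obtain ⟨t, ht, c, hc, hgen, -⟩ := genI 1
  obtain ⟨N₁, h1⟩ := hgen (1 / 500) (by norm_num)
  obtain ⟨c0, hc0, hV⟩ := Vp_low 1
  refine ⟨max N₁ (10 ^ 6), ?_⟩
  intro n hn x hx1 hx2
  have b1 : N₁ ≤ n := (le_max_left _ _).trans hn
  have b2 : 10 ^ 6 ≤ n := (le_max_right _ _).trans hn
  have hnr : (10 : ℝ) ^ 6 ≤ n := by exact_mod_cast b2
  have hlen : (n : ℝ) / 8 ≤ ((n - x : ℕ) : ℝ) - ((n / 2 - x : ℕ) : ℝ) := by
    have e : ((n - x : ℕ) : ℝ) - ((n / 2 - x : ℕ) : ℝ) = (((n - x) - (n / 2 - x) : ℕ) : ℝ) := by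
      rw [Nat.cast_sub (by omega : n / 2 - x ≤ n - x)]
    rw [e]
    have h2 : n ≤ 8 * ((n - x) - (n / 2 - x)) := by omega
    have h2' : (n : ℝ) ≤ 8 * (((n - x) - (n / 2 - x) : ℕ) : ℝ) := by exact_mod_cast h2
    linarith
  have hh : (-((2 * x : ℕ) : ℤ)).natAbs = 2 * x := by omega
  have hsys := sys_single x n hx1 (by omega) _ hh
  have hg := h1 (2 * n) (by omega) {-((2 * x : ℕ) : ℤ)} hsys _ (mem_singleton_self _)
    (n / 2 - x) (n - x) (by omega) (by push_cast; linarith)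
  have hVp := hV (2 * n) (by omega) {-((2 * x : ℕ) : ℤ)} hsys.card hsys.loc
  have hlog0 : 0 < Real.log ((2 * n : ℕ) : ℝ) := Real.log_pos (by push_cast; linarith)
  have hVpos : 0 < Vp {-((2 * x : ℕ) : ℤ)} (2 * n) := lt_of_lt_of_le (by positivity) hVp
  have hpos : (0 : ℝ) < ((Good t (2 * n) (n / 2 - x) (n - x) {-((2 * x : ℕ) : ℤ)} (-((2 * x : ℕ) : ℤ))).card : ℝ) := by
    refine lt_of_lt_of_le ?_ hg
    have : 0 < ((n - x : ℕ) : ℝ) - ((n / 2 - x : ℕ) : ℝ) := lt_of_lt_of_le (by linarith) hlen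
    positivity
  have hpos' : 0 < (Good t (2 * n) (n / 2 - x) (n - x) {-((2 * x : ℕ) : ℤ)} (-((2 * x : ℕ) : ℤ))).card := by
    exact_mod_cast hpos
  obtain ⟨p, hp⟩ := card_pos.1 hpos'
  simp only [Good, mem_filter, mem_Ioc] at hp
  obtain ⟨⟨a1, a2⟩, a3, -, a4, -⟩ := hp
  refine ⟨p + x, by omega, by omega, by have := a3.pos; omega, ?_, ?_, ?_⟩
  · rw [Nat.add_sub_cancel]
    exact a3
  · rw [Nat.add_sub_cancel]
    have h5 : n ≤ 8 * p := by omega
    calc 2 * n ≤ 16 * p := by omega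
      _ < p * p := by nlinarith
      _ = p ^ 2 := by ring
      _ ≤ p ^ 10 := Nat.pow_le_pow_right a3.pos (by norm_num)
  · have e : ((p + x + x : ℕ) : ℤ) = -(-((2 * x : ℕ) : ℤ) - p) := by
      push_cast
      ring
    rw [e]
    obtain ⟨r1, r2, r3⟩ := a4
    refine ⟨neg_ne_zero.2 r1, ?_, ?_⟩
    · rw [Int.natAbs_neg]
      exact r2
    · intro q hq hd
      exact r3 q hq ((dvd_neg).1 hd)

end Pool.Agent.Helper255.GG
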