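import Pool.Agent.Y816.PD.UniS
import Pool.Agent.Helper255.GG.Mom

/-! The singular product for the common neighbours of two vertices. -/

set_option autoImplicit false

open Finset Filter

namespace Pool.Agent.Helper255.GG

open Pool.Agent.Y816.PD

/-- the product of the four linear forms in `y` -/
def GP (x z : ℕ) (y : ℕ) : ℤ := ((x : ℤ) + y) * ((x : ℤ) - y) * ((y : ℤ) + z) * ((y : ℤ) - z)

/-- a fixed admissible quadruple -/
def H4 : Finset ℕ := {0, 2, 6, 8}

lemma H4_adm : ∀ p : ℕ, p.Prime → ∃ m : ℕ, ∀ h ∈ H4, ¬ p ∣ m + h := by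
  intro p hp
  rcases Nat.lt_or_ge p 5 with h5 | h5
  · have h2 := hp.two_le
    interval_cases p
    · exact ⟨1, by decide⟩
    · exact ⟨2, by decide⟩
    · exact absurd hp (by decide)
  · by_contra hcon
    push Not at hcon
    have : Fact p.Prime := ⟨hp⟩
    -- the map to ZMod p
    have hsub : (Finset.univ : Finset (ZMod p)) ⊆ H4.image (fun h : ℕ => -(h : ZMod p)) := by
      intro a _
      obtain ⟨h, hh, hd⟩ := hcon a.val
      rw [mem_image]
      refine ⟨h, hh, ?_⟩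
      have h1 : ((a.val + h : ℕ) : ZMod p) = 0 := (ZMod.natCast_eq_zero_iff _ _).2 hd
      push_cast at h1
      rw [ZMod.natCast_zmod_val] at h1
      exact (eq_neg_of_add_eq_zero_left h1).symm
    have h1 := card_le_card hsub
    rw [Finset.card_univ, ZMod.card] at h1
    have h2 : (H4.image (fun h : ℕ => -(h : ZMod p))).card ≤ 4 := card_image_le.trans (by decide)
    omega

/-- at most four classes -/
lemma omH_le (p : ℕ) (hp : p.Prime) : ((range p).filter (fun n : ℕ => (p : ℤ) ∣ TP H4 0 n)).card ≤ 4 := by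
  classical
  have : Fact p.Prime := ⟨hp⟩
  have h1 : ((range p).filter (fun n : ℕ => (p : ℤ) ∣ TP H4 0 n)).card ≤ (H4.image (fun h : ℕ => -(h : ZMod p))).card := by
    apply card_le_card_of_injOn (fun n : ℕ => (n : ZMod p))
    · intro n hn
      simp only [coe_filter, Set.mem_ofPred_eq, mem_range] at hn
      obtain ⟨h, hh, hd⟩ := (TP_dvd H4 0 n hp).1 hn.2
      simp only [coe_image, Set.mem_image, mem_coe]
      refine ⟨h, hh, ?_⟩
      have h1 : ((0 + n + h : ℕ) : ZMod p) = 0 := (ZMod.natCast_eq_zero_iff _ _).2 hd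
      push_cast at h1
      rw [zero_add] at h1
      exact (eq_neg_of_add_eq_zero_left h1).symm
    · intro a ha b hb hab
      simp only [coe_filter, Set.mem_ofPred_eq, mem_range] at ha hb
      simp only at hab
      rw [ZMod.natCast_eq_natCast_iff'] at hab
      rwa [Nat.mod_eq_of_lt ha.1, Nat.mod_eq_of_lt hb.1] at hab
  exact h1.trans (card_image_le.trans (by decide))

lemma omH_two : ((range 2).filter (fun n : ℕ => ((2 : ℕ) : ℤ) ∣ TP H4 0 n)).card ≤ 1 := by
  have h1 : ∀ n : ℕ, ((2 : ℕ) : ℤ) ∣ TP H4 0 n ↔ ∃ h ∈ H4, 2 ∣ 0 + n + h := fun n => TP_dvd H4 0 n Nat.prime_two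
  simp only [h1]
  decide

lemma omH_three : ((range 3).filter (fun n : ℕ => ((3 : ℕ) : ℤ) ∣ TP H4 0 n)).card ≤ 2 := by
  have h1 : ∀ n : ℕ, ((3 : ℕ) : ℤ) ∣ TP H4 0 n ↔ ∃ h ∈ H4, 3 ∣ 0 + n + h := fun n => TP_dvd H4 0 n Nat.prime_three
  simp only [h1]
  decide

/-- at least four classes -/
lemma omG_ge (p x z : ℕ) (hp : p.Prime) (h5 : 5 ≤ p) (hx : ¬ p ∣ x) (hz : ¬ p ∣ z) (hzx : z < x) (hd : ¬ p ∣ x - z)
    (hs : ¬ p ∣ x + z) : 4 ≤ ((range p).filter (fun n : ℕ => (p : ℤ) ∣ GP x z n)).card := by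
  classical
  have : Fact p.Prime := ⟨hp⟩
  have h2 : (2 : ZMod p) ≠ 0 := by
    intro h
    have h1 : ((2 : ℕ) : ZMod p) = 0 := by exact_mod_cast h
    rw [ZMod.natCast_eq_zero_iff] at h1
    have := Nat.le_of_dvd (by norm_num) h1
    omega
  have hx0 : (x : ZMod p) ≠ 0 := fun h => hx ((ZMod.natCast_eq_zero_iff _ _).1 h)
  have hz0 : (z : ZMod p) ≠ 0 := fun h => hz ((ZMod.natCast_eq_zero_iff _ _).1 h)
  have hd0 : (x : ZMod p) ≠ z := by
    intro h
    apply hd
    rw [← ZMod.natCast_eq_zero_iff, Nat.cast_sub hzx.le, h, sub_self]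
  have hs0 : (x : ZMod p) ≠ -z := by
    intro h
    apply hs
    rw [← ZMod.natCast_eq_zero_iff, Nat.cast_add, h]
    ring
  have e1 : (x : ZMod p) ≠ -x := by
    intro h
    have h1 : (2 : ZMod p) * x = 0 := by
      rw [two_mul]
      nth_rewrite 1 [h]
      ring
    rcases mul_eq_zero.1 h1 with h3 | h3
    · exact h2 h3
    · exact hx0 h3
  have e2 : (z : ZMod p) ≠ -z := by
    intro h
    have h1 : (2 : ZMod p) * z = 0 := by
      rw [two_mul]
      nth_rewrite 1 [h]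
      ring
    rcases mul_eq_zero.1 h1 with h3 | h3
    · exact h2 h3
    · exact hz0 h3
  have hcard : ({(x : ZMod p), -(x : ZMod p), (z : ZMod p), -(z : ZMod p)} : Finset (ZMod p)).card = 4 := by
    rw [card_insert_of_notMem, card_insert_of_notMem, card_insert_of_notMem, card_singleton]
    · rw [mem_singleton]
      exact e2
    · rw [mem_insert, mem_singleton]
      rintro (h | h)
      · exact hs0 (by rw [← h, neg_neg])
      · exact hd0 (neg_injective h)
    · rw [mem_insert, mem_insert, mem_singleton]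
      rintro (h | h | h)
      · exact e1 h
      · exact hd0 h
      · exact hs0 h
  rw [← hcard]
  apply card_le_card_of_injOn ZMod.val
  · intro a ha
    simp only [coe_insert, coe_singleton, Set.mem_insert_iff, Set.mem_singleton_iff] at ha
    simp only [coe_filter, Set.mem_ofPred_eq, mem_range]
    refine ⟨ZMod.val_lt a, ?_⟩
    rw [← ZMod.intCast_zmod_eq_zero_iff_dvd]
    unfold GP
    push_cast
    rw [ZMod.natCast_zmod_val]
    rcases ha with h | h | h | h
    · rw [h]; ring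
    · rw [h]; ring
    · rw [h]; ring
    · rw [h]; ring
  · intro a _ b _ hab
    exact ZMod.val_injective p hab

/-- at least three classes -/
lemma omG_ge3 (p x z : ℕ) (hp : p.Prime) (h5 : 5 ≤ p) (hx : p ∣ x) (hz : ¬ p ∣ z) :
    3 ≤ ((range p).filter (fun n : ℕ => (p : ℤ) ∣ GP x z n)).card := by
  classical
  have : Fact p.Prime := ⟨hp⟩
  have h2 : (2 : ZMod p) ≠ 0 := by
    intro h
    have h1 : ((2 : ℕ) : ZMod p) = 0 := by exact_mod_cast h
    rw [ZMod.natCast_eq_zero_iff] at h1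
    have := Nat.le_of_dvd (by norm_num) h1
    omega
  have hx0 : (x : ZMod p) = 0 := (ZMod.natCast_eq_zero_iff _ _).2 hx
  have hz0 : (z : ZMod p) ≠ 0 := fun h => hz ((ZMod.natCast_eq_zero_iff _ _).1 h)
  have e2 : (z : ZMod p) ≠ -z := by
    intro h
    have h1 : (2 : ZMod p) * z = 0 := by
      rw [two_mul]
      nth_rewrite 1 [h]
      ring
    rcases mul_eq_zero.1 h1 with h3 | h3
    · exact h2 h3
    · exact hz0 h3
  have hcard : ({(0 : ZMod p), (z : ZMod p), -(z : ZMod p)} : Finset (ZMod p)).card = 3 := by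
    rw [card_insert_of_notMem, card_insert_of_notMem, card_singleton]
    · rw [mem_singleton]
      exact e2
    · rw [mem_insert, mem_singleton]
      rintro (h | h)
      · exact hz0 h.symm
      · exact hz0 (neg_eq_zero.1 h.symm)
  rw [← hcard]
  apply card_le_card_of_injOn ZMod.val
  · intro a ha
    simp only [coe_insert, coe_singleton, Set.mem_insert_iff, Set.mem_singleton_iff] at ha
    simp only [coe_filter, Set.mem_ofPred_eq, mem_range]
    refine ⟨ZMod.val_lt a, ?_⟩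
    rw [← ZMod.intCast_zmod_eq_zero_iff_dvd]
    unfold GP
    push_cast
    rw [ZMod.natCast_zmod_val, hx0]
    rcases ha with h | h | h
    · rw [h]; ring
    · rw [h]; ring
    · rw [h]; ring
  · intro a _ b _ hab
    exact ZMod.val_injective p hab

/-- the local factor at the prime factors of the vertex -/
noncomputable def G (x : ℕ) : ℝ := ∏ p ∈ x.primeFactors.filter (fun p => 5 ≤ p), (((p : ℝ) - 3) / ((p : ℝ) - 4))

lemma one_le_gfac (p : ℕ) (h : 5 ≤ p) : (1 : ℝ) ≤ ((p : ℝ) - 3) / ((p : ℝ) - 4) := by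
  have : (5 : ℝ) ≤ p := by exact_mod_cast h
  rw [le_div_iff₀ (by linarith)]
  linarith

lemma one_le_G (x : ℕ) : 1 ≤ G x := by
  unfold G
  calc (1 : ℝ) = ∏ p ∈ x.primeFactors.filter (fun p => 5 ≤ p), (1 : ℝ) := by simp
    _ ≤ _ := prod_le_prod (fun _ _ => zero_le_one) (fun p hp => one_le_gfac p (mem_filter.1 hp).2)

lemma G_mul_le (x : ℕ) (hx : 1 ≤ x) (X : ℕ) (D : ℕ → Prop) [DecidablePred D] :
    ∏ p ∈ (Icc 1 X).filter Nat.Prime, (if 5 ≤ p ∧ p ∣ x ∧ ¬ D p then ((p : ℝ) - 3) / ((p : ℝ) - 4) else 1) ≤ G x := by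
  classical
  rw [← prod_filter]
  unfold G
  have hsub : ((Icc 1 X).filter Nat.Prime).filter (fun p => 5 ≤ p ∧ p ∣ x ∧ ¬ D p) ⊆
      x.primeFactors.filter (fun p => 5 ≤ p) := by
    intro p hp
    simp only [mem_filter, mem_Icc] at hp
    simp only [mem_filter, Nat.mem_primeFactors]
    exact ⟨⟨hp.1.2, hp.2.2.1, by omega⟩, hp.2.1⟩
  rw [← Finset.prod_sdiff hsub]
  have h0 : (0 : ℝ) ≤ ∏ p ∈ ((Icc 1 X).filter Nat.Prime).filter (fun p => 5 ≤ p ∧ p ∣ x ∧ ¬ D p),
      (((p : ℝ) - 3) / ((p : ℝ) - 4)) :=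
    prod_nonneg fun p hp => le_trans zero_le_one (one_le_gfac p (mem_filter.1 hp).2.1)
  have h1 : (1 : ℝ) ≤ ∏ p ∈ (x.primeFactors.filter (fun p => 5 ≤ p)) \
      (((Icc 1 X).filter Nat.Prime).filter (fun p => 5 ≤ p ∧ p ∣ x ∧ ¬ D p)), (((p : ℝ) - 3) / ((p : ℝ) - 4)) := by
    calc (1 : ℝ) = ∏ p ∈ (x.primeFactors.filter (fun p => 5 ≤ p)) \
      (((Icc 1 X).filter Nat.Prime).filter (fun p => 5 ≤ p ∧ p ∣ x ∧ ¬ D p)), (1 : ℝ) := by simp
      _ ≤ _ := prod_le_prod (fun _ _ => zero_le_one) (fun p hp => one_le_gfac p (mem_filter.1 (Finset.mem_sdiff.1 hp).1).2)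
  nlinarith

lemma F_mul_le (x z : ℕ) (hz : 1 ≤ z) (hzx : z < x) (X : ℕ) :
    ∏ p ∈ ((Icc 1 X).filter Nat.Prime).filter (fun p => 5 ≤ p ∧ (p ∣ z ∨ p ∣ x - z ∨ p ∣ x + z)), (1 + 20 / (p : ℝ)) ≤
      F z * F (x - z) * F (x + z) := by
  classical
  have key : ∀ (A B : Finset ℕ), ∏ p ∈ A ∪ B, (1 + 20 / (p : ℝ)) ≤ (∏ p ∈ A, (1 + 20 / (p : ℝ))) * ∏ p ∈ B, (1 + 20 / (p : ℝ)) := by
    intro A B
    rw [← Finset.prod_union_inter]
    have h0 : (0 : ℝ) ≤ ∏ p ∈ A ∪ B, (1 + 20 / (p : ℝ)) := prod_nonneg fun p _ => le_trans zero_le_one (one_le_fac p)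
    have h1 : (1 : ℝ) ≤ ∏ p ∈ A ∩ B, (1 + 20 / (p : ℝ)) := by
      calc (1 : ℝ) = ∏ p ∈ A ∩ B, (1 : ℝ) := by simp
        _ ≤ _ := prod_le_prod (fun _ _ => zero_le_one) (fun p _ => one_le_fac p)
    nlinarith
  have hFnn : ∀ m, 0 ≤ F m := fun m => le_trans zero_le_one (one_le_F m)
  have h1 : ∏ p ∈ ((Icc 1 X).filter Nat.Prime).filter (fun p => 5 ≤ p ∧ (p ∣ z ∨ p ∣ x - z ∨ p ∣ x + z)), (1 + 20 / (p : ℝ)) ≤
      ∏ p ∈ (z.primeFactors ∪ (x - z).primeFactors) ∪ (x + z).primeFactors, (1 + 20 / (p : ℝ)) := by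
    have hmono : ∀ (A B : Finset ℕ), A ⊆ B → ∏ p ∈ A, (1 + 20 / (p : ℝ)) ≤ ∏ p ∈ B, (1 + 20 / (p : ℝ)) := by
      intro A B hAB
      rw [← Finset.prod_sdiff hAB]
      have h0 : (0 : ℝ) ≤ ∏ p ∈ A, (1 + 20 / (p : ℝ)) := prod_nonneg fun p _ => le_trans zero_le_one (one_le_fac p)
      have h1 : (1 : ℝ) ≤ ∏ p ∈ B \ A, (1 + 20 / (p : ℝ)) := by
        calc (1 : ℝ) = ∏ p ∈ B \ A, (1 : ℝ) := by simp
          _ ≤ _ := prod_le_prod (fun _ _ => zero_le_one) (fun p _ => one_le_fac p)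
      nlinarith
    apply hmono
    · intro p hp
      simp only [mem_filter, mem_Icc] at hp
      simp only [mem_union, Nat.mem_primeFactors]
      obtain ⟨⟨_, hpp⟩, _, h | h | h⟩ := hp
      · exact Or.inl (Or.inl ⟨hpp, h, by omega⟩)
      · exact Or.inl (Or.inr ⟨hpp, h, by omega⟩)
      · exact Or.inr ⟨hpp, h, by omega⟩
  refine h1.trans ((key _ _).trans ?_)
  apply mul_le_mul_of_nonneg_right _ (hFnn _)
  exact key _ _

/-- comparison of the singular products -/
theorem WG_le (x z : ℕ) (hz : 1 ≤ z) (hzx : z < x) (X : ℕ) :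
    WG (GP x z) X ≤ 6 * WG (TP H4 0) X * (G x * (F z * F (x - z) * F (x + z))) := by
  classical
  set P : Finset ℕ := (Icc 1 X).filter Nat.Prime with hP
  set D : ℕ → Prop := fun p => 5 ≤ p ∧ (p ∣ z ∨ p ∣ x - z ∨ p ∣ x + z) with hD
  set t : ℕ → ℝ := fun p => (if p = 2 then 2 else 1) * ((if p = 3 then 3 else 1) * ((if D p then 1 + 20 / (p : ℝ) else 1) *
    (if 5 ≤ p ∧ p ∣ x ∧ ¬ D p then ((p : ℝ) - 3) / ((p : ℝ) - 4) else 1))) with ht
  have hb0 : ∀ p ∈ P, (0 : ℝ) ≤ 1 - (((range p).filter (fun n : ℕ => (p : ℤ) ∣ TP H4 0 n)).card : ℝ) / p := by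
    intro p hp
    have hpp := (mem_filter.1 hp).2
    have hp0 : (0 : ℝ) < p := by exact_mod_cast hpp.pos
    rw [sub_nonneg, div_le_one hp0]
    exact_mod_cast (card_filter_le _ _).trans (card_range p).le
  have ha0 : ∀ p ∈ P, (0 : ℝ) ≤ 1 - (((range p).filter (fun n : ℕ => (p : ℤ) ∣ GP x z n)).card : ℝ) / p := by
    intro p hp
    have hpp := (mem_filter.1 hp).2
    have hp0 : (0 : ℝ) < p := by exact_mod_cast hpp.pos
    rw [sub_nonneg, div_le_one hp0]
    exact_mod_cast (card_filter_le _ _).trans (card_range p).le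
  have ha1 : ∀ p ∈ P, 1 - (((range p).filter (fun n : ℕ => (p : ℤ) ∣ GP x z n)).card : ℝ) / p ≤ 1 := by
    intro p hp
    have : (0 : ℝ) ≤ (((range p).filter (fun n : ℕ => (p : ℤ) ∣ GP x z n)).card : ℝ) / p := by positivity
    linarith
  have hfac : ∀ p ∈ P, 1 - (((range p).filter (fun n : ℕ => (p : ℤ) ∣ GP x z n)).card : ℝ) / p ≤
      (1 - (((range p).filter (fun n : ℕ => (p : ℤ) ∣ TP H4 0 n)).card : ℝ) / p) * t p := by
    intro p hp
    have hpp := (mem_filter.1 hp).2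
    have hp0 : (0 : ℝ) < p := by exact_mod_cast hpp.pos
    rcases Nat.lt_or_ge p 5 with h5 | h5
    · have h2 := hpp.two_le
      interval_cases p
      · have h1 : (((range 2).filter (fun n : ℕ => ((2 : ℕ) : ℤ) ∣ TP H4 0 n)).card : ℝ) ≤ 1 := by
          exact_mod_cast omH_two
        refine (ha1 _ hp).trans ?_
        have : t 2 = 2 := by simp [ht, hD]
        rw [this]
        push_cast at h1 ⊢
        linarith
      · have h1 : (((range 3).filter (fun n : ℕ => ((3 : ℕ) : ℤ) ∣ TP H4 0 n)).card : ℝ) ≤ 2 := by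
          exact_mod_cast omH_three
        refine (ha1 _ hp).trans ?_
        have : t 3 = 3 := by simp [ht, hD]
        rw [this]
        push_cast at h1 ⊢
        linarith
      · exact absurd hpp (by decide)
    · have h1 : (((range p).filter (fun n : ℕ => (p : ℤ) ∣ TP H4 0 n)).card : ℝ) ≤ 4 := by exact_mod_cast omH_le p hpp
      have hp5 : (5 : ℝ) ≤ p := by exact_mod_cast h5
      have h2 : 1 - 4 / (p : ℝ) ≤ 1 - (((range p).filter (fun n : ℕ => (p : ℤ) ∣ TP H4 0 n)).card : ℝ) / p := by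
        have := div_le_div_of_nonneg_right h1 hp0.le
        linarith
      have ht2 : t p = (if D p then 1 + 20 / (p : ℝ) else 1) *
          (if 5 ≤ p ∧ p ∣ x ∧ ¬ D p then ((p : ℝ) - 3) / ((p : ℝ) - 4) else 1) := by
        simp only [ht]
        rw [if_neg (by omega), if_neg (by omega), one_mul, one_mul]
      rw [ht2]
      by_cases hDp : D p
      · rw [if_pos hDp, if_neg (by tauto), mul_one]
        refine (ha1 _ hp).trans ?_
        have h3 : (1 : ℝ) ≤ (1 - 4 / (p : ℝ)) * (1 + 20 / (p : ℝ)) := by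
          have e : (1 - 4 / (p : ℝ)) * (1 + 20 / (p : ℝ)) = 1 + 16 / (p : ℝ) * (1 - 5 / p) := by
            field_simp
            ring
          rw [e]
          have h4 : 0 ≤ 1 - 5 / (p : ℝ) := by
            rw [sub_nonneg, div_le_one hp0]
            exact hp5
          have : 0 ≤ 16 / (p : ℝ) * (1 - 5 / p) := mul_nonneg (by positivity) h4
          linarith
        exact h3.trans (mul_le_mul_of_nonneg_right h2 (le_trans zero_le_one (one_le_fac p)))
      · have h3 : ¬ (p ∣ z ∨ p ∣ x - z ∨ p ∣ x + z) := fun h => hDp ⟨h5, h⟩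
        push Not at h3
        rw [if_neg hDp, one_mul]
        by_cases hpx : p ∣ x
        · rw [if_pos ⟨h5, hpx, hDp⟩]
          have h4 : (3 : ℝ) ≤ (((range p).filter (fun n : ℕ => (p : ℤ) ∣ GP x z n)).card : ℝ) := by
            exact_mod_cast omG_ge3 p x z hpp h5 hpx h3.1
          have h6 := div_le_div_of_nonneg_right h4 hp0.le
          have h7 : (0 : ℝ) < (p : ℝ) - 4 := by linarith
          have e : 1 - 3 / (p : ℝ) = (1 - 4 / (p : ℝ)) * (((p : ℝ) - 3) / ((p : ℝ) - 4)) := by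
            field_simp
          calc 1 - (((range p).filter (fun n : ℕ => (p : ℤ) ∣ GP x z n)).card : ℝ) / p ≤ 1 - 3 / (p : ℝ) := by linarith
            _ = (1 - 4 / (p : ℝ)) * (((p : ℝ) - 3) / ((p : ℝ) - 4)) := e
            _ ≤ _ := mul_le_mul_of_nonneg_right h2 (le_trans zero_le_one (one_le_gfac p h5))
        · rw [if_neg (by tauto), mul_one]
          refine le_trans ?_ h2
          have h4 : (4 : ℝ) ≤ (((range p).filter (fun n : ℕ => (p : ℤ) ∣ GP x z n)).card : ℝ) := by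
            exact_mod_cast omG_ge p x z hpp h5 hpx h3.1 hzx h3.2.1 h3.2.2
          have := div_le_div_of_nonneg_right h4 hp0.le
          linarith
  have htprod : ∏ p ∈ P, t p ≤ 6 * (G x * (F z * F (x - z) * F (x + z))) := by
    have hGG := one_le_G x
    have hFF : 0 ≤ F z * F (x - z) * F (x + z) := by
      have := one_le_F z
      have := one_le_F (x - z)
      have := one_le_F (x + z)
      positivity
    simp only [ht]
    rw [prod_mul_distrib, prod_mul_distrib, prod_mul_distrib]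
    have h1 : ∏ p ∈ P, (if p = 2 then (2 : ℝ) else 1) ≤ 2 := by
      rw [prod_ite_eq']
      split_ifs
      · exact le_rfl
      · norm_num
    have h2 : ∏ p ∈ P, (if p = 3 then (3 : ℝ) else 1) ≤ 3 := by
      rw [prod_ite_eq']
      split_ifs
      · exact le_rfl
      · norm_num
    have h3 : ∏ p ∈ P, (if D p then 1 + 20 / (p : ℝ) else 1) ≤ F z * F (x - z) * F (x + z) := by
      rw [← prod_filter]
      exact F_mul_le x z hz hzx X
    have h4 : ∏ p ∈ P, (if 5 ≤ p ∧ p ∣ x ∧ ¬ D p then ((p : ℝ) - 3) / ((p : ℝ) - 4) else 1) ≤ G x :=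
      G_mul_le x (by omega) X D
    have h4' : 0 ≤ ∏ p ∈ P, (if 5 ≤ p ∧ p ∣ x ∧ ¬ D p then ((p : ℝ) - 3) / ((p : ℝ) - 4) else 1) :=
      prod_nonneg fun p _ => by
        split_ifs with hh
        · exact le_trans zero_le_one (one_le_gfac p hh.1)
        · norm_num
    have h1' : 0 ≤ ∏ p ∈ P, (if p = 2 then (2 : ℝ) else 1) := prod_nonneg fun p _ => by split_ifs <;> norm_num
    have h2' : 0 ≤ ∏ p ∈ P, (if p = 3 then (3 : ℝ) else 1) := prod_nonneg fun p _ => by split_ifs <;> norm_num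
    have h3' : 0 ≤ ∏ p ∈ P, (if D p then 1 + 20 / (p : ℝ) else 1) := prod_nonneg fun p _ => by
      split_ifs
      · exact le_trans zero_le_one (one_le_fac p)
      · norm_num
    calc _ ≤ 2 * (3 * ((F z * F (x - z) * F (x + z)) * G x)) :=
          mul_le_mul h1 (mul_le_mul h2 (mul_le_mul h3 h4 h4' hFF) (mul_nonneg h3' h4') (by norm_num))
            (mul_nonneg h2' (mul_nonneg h3' h4')) (by norm_num)
      _ = _ := by ring
  have hWnn : 0 ≤ WG (TP H4 0) X := prod_nonneg hb0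
  calc WG (GP x z) X ≤ ∏ p ∈ P, ((1 - (((range p).filter (fun n : ℕ => (p : ℤ) ∣ TP H4 0 n)).card : ℝ) / p) * t p) :=
        prod_le_prod ha0 hfac
    _ = WG (TP H4 0) X * ∏ p ∈ P, t p := by rw [prod_mul_distrib]; rfl
    _ ≤ WG (TP H4 0) X * (6 * (G x * (F z * F (x - z) * F (x + z)))) := mul_le_mul_of_nonneg_left htprod hWnn
    _ = _ := by ring

end Pool.Agent.Helper255.GG
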