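import Pool.Agent.Y816.PD.UniG
import Pool.Agent.Helper255.GG.Loc
import Pool.Agent.H373R2.T7.Minor

/-! Upper bound for the number of the common neighbours of two vertices. -/

set_option autoImplicit false

open Finset Filter

namespace Pool.Agent.Helper255.GG

open Pool.Agent.Y816.PD

/-- `x > y` are adjacent -/
def E (x y : ℕ) : Prop := y < x ∧ (x + y).Prime ∧ (x - y).Prime

instance : DecidableRel E := fun x y => by unfold E; infer_instance

/-- the number of the `y` with `x > y > z` and `E x y`, `E y z` -/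
def N2 (x z : ℕ) : ℕ := ((Ioo z x).filter (fun y => E x y ∧ E y z)).card

/-- common neighbours if the four forms have a fixed divisor -/
lemma N2_inadm (x z p : ℕ) (hp : p.Prime) (h : ∀ y : ℕ, (p : ℤ) ∣ GP x z y) : N2 x z ≤ 4 := by
  classical
  unfold N2
  have hsub : (Ioo z x).filter (fun y => E x y ∧ E y z) ⊆ {p - x, x - p, p - z, p + z} := by
    intro y hy
    rw [mem_filter, mem_Ioo] at hy
    obtain ⟨⟨h1, h2⟩, ⟨_, h3, h4⟩, _, h5, h6⟩ := hy
    have hpz := Nat.prime_iff_prime_int.1 hp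
    have h7 := h y
    unfold GP at h7
    simp only [mem_insert, mem_singleton]
    rcases hpz.dvd_or_dvd h7 with h8 | h8
    · rcases hpz.dvd_or_dvd h8 with h9 | h9
      · rcases hpz.dvd_or_dvd h9 with h10 | h10
        · have : p ∣ x + y := by exact_mod_cast h10
          have := (Nat.prime_dvd_prime_iff_eq hp h3).1 this
          left
          omega
        · have : p ∣ x - y := by
            rw [← Int.natCast_dvd_natCast, Nat.cast_sub h2.le]
            exact h10
          have := (Nat.prime_dvd_prime_iff_eq hp h4).1 this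
          right; left
          omega
      · have : p ∣ y + z := by exact_mod_cast h9
        have := (Nat.prime_dvd_prime_iff_eq hp h5).1 this
        right; right; left
        omega
    · have : p ∣ y - z := by
        rw [← Int.natCast_dvd_natCast, Nat.cast_sub h1.le]
        exact h8
      have := (Nat.prime_dvd_prime_iff_eq hp h6).1 this
      right; right; right
      omega
  exact (card_le_card hsub).trans (card_le_four)

/-- from the common neighbours to the sieve -/
lemma N2_le_ND (x z K r : ℕ) (hr : 2 ≤ r) (hx : x < 2 ^ K) :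
    N2 x z ≤ ND 2 K (fun _ => range 2) (Rgh (GP x z) r) + 2 * Nat.sqrt (2 ^ K) := by
  classical
  set s := Nat.sqrt (2 ^ K) with hs
  have hs1 : 2 ^ K < (s + 1) * (s + 1) := Nat.lt_succ_sqrt (2 ^ K)
  unfold N2
  have hsub : (Ioo z x).filter (fun y => E x y ∧ E y z) ⊆
      ((range (2 ^ K)).filter (fun n => (∀ i < K, n / 2 ^ i % 2 ∈ (fun _ => range 2) i) ∧ n ∈ Rgh (GP x z) r)) ∪
        (Ico (x - s) x ∪ Ioc z (z + s)) := by
    intro y hy
    rw [mem_filter, mem_Ioo] at hy
    obtain ⟨⟨h1, h2⟩, ⟨_, h3, h4⟩, _, h5, h6⟩ := hy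
    simp only [mem_union, mem_Ico, mem_Ioc]
    by_cases hc1 : x - s ≤ y
    · exact Or.inr (Or.inl ⟨hc1, h2⟩)
    by_cases hc2 : y ≤ z + s
    · exact Or.inr (Or.inr ⟨h1, hc2⟩)
    left
    rw [mem_filter]
    refine ⟨mem_range.2 (h2.trans hx), fun i _ => mem_range.2 (Nat.mod_lt _ (by norm_num)), ?_⟩
    intro p hp hd
    have hbig : s + 1 ≤ p := by
      have hpz := Nat.prime_iff_prime_int.1 hp
      unfold GP at hd
      rcases hpz.dvd_or_dvd hd with h8 | h8
      · rcases hpz.dvd_or_dvd h8 with h9 | h9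
        · rcases hpz.dvd_or_dvd h9 with h10 | h10
          · have : p ∣ x + y := by exact_mod_cast h10
            have := (Nat.prime_dvd_prime_iff_eq hp h3).1 this
            omega
          · have : p ∣ x - y := by
              rw [← Int.natCast_dvd_natCast, Nat.cast_sub h2.le]
              exact h10
            have := (Nat.prime_dvd_prime_iff_eq hp h4).1 this
            omega
        · have : p ∣ y + z := by exact_mod_cast h9
          have := (Nat.prime_dvd_prime_iff_eq hp h5).1 this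
          omega
      · have : p ∣ y - z := by
          rw [← Int.natCast_dvd_natCast, Nat.cast_sub h1.le]
          exact h8
        have := (Nat.prime_dvd_prime_iff_eq hp h6).1 this
        omega
    calc y < 2 ^ K := h2.trans hx
      _ < (s + 1) * (s + 1) := hs1
      _ ≤ p * p := Nat.mul_le_mul hbig hbig
      _ = p ^ 2 := by ring
      _ ≤ p ^ r := Nat.pow_le_pow_right hp.pos hr
  refine (card_le_card hsub).trans ((card_union_le _ _).trans ?_)
  refine Nat.add_le_add (le_of_eq ?_) ((card_union_le _ _).trans ?_)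
  · unfold ND
    congr 1
  · rw [Nat.card_Ico, Nat.card_Ioc]
    omega

/-- **The number of the common neighbours.** -/
theorem N2_le : ∃ C : ℝ, 0 < C ∧ ∃ n₀ : ℕ, ∀ n : ℕ, n₀ ≤ n → ∀ x z : ℕ, 1 ≤ z → z < x → x ≤ n →
    (N2 x z : ℝ) ≤ C * (n / Real.log n ^ 4) * (G x * (F z * F (x - z) * F (x + z))) := by
  obtain ⟨c, hc, r0, hr0, h⟩ := uni_fun 4 5 (by norm_num)
  obtain ⟨κ, C, hκ, hC, hK⟩ := h r0 le_rfl 2 le_rfl
  obtain ⟨v, Cv, hv, hCv, hW⟩ := WG_bounds H4 H4_adm 4 (by decide) 2 le_rfl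
  obtain ⟨K0, hK0⟩ := eventually_atTop.1 (hK.and (hW.and (eventually_ge_atTop 3)))
  obtain ⟨n1, hn1⟩ := Pool.Agent.H373R2.T7.ev_log' 4 4
  obtain ⟨n2, hn2⟩ := Pool.Agent.H373R2.T7.ev_L' 1
  refine ⟨12 * C * Cv + 4, by positivity, max (2 ^ K0) (max n1 (max n2 3)), ?_⟩
  intro n hn x z hz hzx hxn
  have b0 : 2 ^ K0 ≤ n := (le_max_left _ _).trans hn
  have b1 : n1 ≤ n := ((le_max_left _ _).trans (le_max_right _ _)).trans hn
  have b2 : n2 ≤ n := ((le_max_left _ _).trans ((le_max_right _ _).trans (le_max_right _ _))).trans hn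
  have b3 : 3 ≤ n := ((le_max_right _ _).trans ((le_max_right _ _).trans (le_max_right _ _))).trans hn
  have e1 := hn1 n b1
  have e2 := hn2 n b2
  obtain ⟨L, hL⟩ : ∃ L, L = Real.log n := ⟨_, rfl⟩
  rw [← hL] at e1 e2 ⊢
  have hnr : (3 : ℝ) ≤ n := by exact_mod_cast b3
  have hL0 : 0 < L := by linarith
  -- the number of digits
  set K := Nat.log 2 n + 1 with hKd
  have hKn : n < 2 ^ K := Nat.lt_pow_succ_log_self (by norm_num) n
  have hKn2 : 2 ^ K ≤ 2 * n := by
    rw [hKd, pow_succ, mul_comm]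
    exact Nat.mul_le_mul_left 2 (Nat.pow_log_le_self 2 (by omega))
  have hKK0 : K0 ≤ K := by
    have : K0 ≤ Nat.log 2 n := Nat.le_log_of_pow_le (by norm_num) b0
    omega
  obtain ⟨g1, g2, g3⟩ := hK0 K hKK0
  have hLK : L ≤ K := by
    rw [hL]
    have h1 : Real.log n ≤ Real.log ((2 : ℝ) ^ K) := by
      apply Real.log_le_log (by linarith)
      exact_mod_cast hKn.le
    rw [Real.log_pow] at h1
    have h2 : Real.log 2 ≤ 1 := by
      have := Real.log_two_lt_d9
      linarith
    have h3 : (0 : ℝ) ≤ K := Nat.cast_nonneg _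
    nlinarith
  have hFF : 1 ≤ G x * (F z * F (x - z) * F (x + z)) := by
    have h1 := one_le_G x
    have h2 := one_le_F z
    have h3 := one_le_F (x - z)
    have h4 := one_le_F (x + z)
    exact one_le_mul_of_one_le_of_one_le h1 (one_le_mul_of_one_le_of_one_le (one_le_mul_of_one_le_of_one_le h2 h3) h4)
  obtain ⟨Φ, hΦ⟩ : ∃ Φ, Φ = G x * (F z * F (x - z) * F (x + z)) := ⟨_, rfl⟩
  rw [← hΦ] at hFF ⊢
  -- `4 √n ≤ n / L ^ 4`
  have hsn : √(n : ℝ) * √(n : ℝ) = n := Real.mul_self_sqrt (by linarith)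
  have hsn0 : 0 < √(n : ℝ) := Real.sqrt_pos.2 (by linarith)
  have hroot : 4 * √(n : ℝ) ≤ n / L ^ 4 := by
    rw [le_div_iff₀ (by positivity)]
    calc 4 * √(n : ℝ) * L ^ 4 = 4 * L ^ 4 * √(n : ℝ) := by ring
      _ ≤ √(n : ℝ) * √(n : ℝ) := mul_le_mul_of_nonneg_right e1 hsn0.le
      _ = n := hsn
  have hnL0 : 0 ≤ (n : ℝ) / L ^ 4 := by positivity
  have hsn1 : 1 ≤ √(n : ℝ) := by
    rw [Real.one_le_sqrt]
    linarith
  by_cases hadm : ∀ p : ℕ, p.Prime → ∃ y : ℕ, ¬ (p : ℤ) ∣ GP x z y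
  · -- the sieve
    have hdeg : ∃ P : Polynomial ℤ, P.natDegree ≤ 4 ∧ ∀ y : ℕ, P.eval (y : ℤ) = GP x z y := by
      refine ⟨(Polynomial.C (x : ℤ) + Polynomial.X) * (Polynomial.C (x : ℤ) - Polynomial.X) *
        (Polynomial.X + Polynomial.C (z : ℤ)) * (Polynomial.X - Polynomial.C (z : ℤ)), ?_, ?_⟩
      · have a1 : (Polynomial.C (x : ℤ) + Polynomial.X : Polynomial ℤ).natDegree ≤ 1 := by
          refine (Polynomial.natDegree_add_le _ _).trans ?_
          rw [Polynomial.natDegree_C]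
          exact max_le (by norm_num) Polynomial.natDegree_X_le
        have a2 : (Polynomial.C (x : ℤ) - Polynomial.X : Polynomial ℤ).natDegree ≤ 1 := by
          refine (Polynomial.natDegree_sub_le _ _).trans ?_
          rw [Polynomial.natDegree_C]
          exact max_le (by norm_num) Polynomial.natDegree_X_le
        have a3 : (Polynomial.X + Polynomial.C (z : ℤ) : Polynomial ℤ).natDegree ≤ 1 := by
          refine (Polynomial.natDegree_add_le _ _).trans ?_
          rw [Polynomial.natDegree_C]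
          exact max_le Polynomial.natDegree_X_le (by norm_num)
        have a4 : (Polynomial.X - Polynomial.C (z : ℤ) : Polynomial ℤ).natDegree ≤ 1 := by
          refine (Polynomial.natDegree_sub_le _ _).trans ?_
          rw [Polynomial.natDegree_C]
          exact max_le Polynomial.natDegree_X_le (by norm_num)
        refine Polynomial.natDegree_mul_le.trans ?_
        have := (Polynomial.natDegree_mul_le (p := (Polynomial.C (x : ℤ) + Polynomial.X) * (Polynomial.C (x : ℤ) - Polynomial.X))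
          (q := (Polynomial.X + Polynomial.C (z : ℤ))))
        have := (Polynomial.natDegree_mul_le (p := (Polynomial.C (x : ℤ) + Polynomial.X))
          (q := (Polynomial.C (x : ℤ) - Polynomial.X)))
        omega
      · intro y
        simp [GP]
    have hsize : ∀ y : ℕ, y < 2 ^ K → (GP x z y).natAbs ≤ 2 ^ (5 * K) := by
      intro y hy
      unfold GP
      rw [Int.natAbs_mul, Int.natAbs_mul, Int.natAbs_mul]
      have hx2 : x < 2 ^ K := by omega
      have hz2 : z < 2 ^ K := by omega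
      have a1 : ((x : ℤ) + y).natAbs ≤ 2 * 2 ^ K := by omega
      have a2 : ((x : ℤ) - y).natAbs ≤ 2 ^ K := by omega
      have a3 : ((y : ℤ) + z).natAbs ≤ 2 * 2 ^ K := by omega
      have a4 : ((y : ℤ) - z).natAbs ≤ 2 ^ K := by omega
      calc ((x : ℤ) + y).natAbs * ((x : ℤ) - y).natAbs * ((y : ℤ) + z).natAbs * ((y : ℤ) - z).natAbs
          ≤ (2 * 2 ^ K) * 2 ^ K * (2 * 2 ^ K) * 2 ^ K := by gcongr
        _ = 2 ^ 2 * 2 ^ (4 * K) := by ring
        _ ≤ 2 ^ K * 2 ^ (4 * K) := Nat.mul_le_mul_right _ (Nat.pow_le_pow_right (by norm_num) (by omega))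
        _ = 2 ^ (5 * K) := by rw [← pow_add]; congr 1; ring
    have hNA : NA K (fun _ => range 2) = (2 : ℝ) ^ K := by
      unfold NA
      simp
    obtain ⟨-, hup⟩ := g1 (GP x z) hdeg hadm hsize (fun _ => range 2) (fun i _ => subset_rfl) (by
      rw [hNA]
      have : (1 : ℝ) ≤ Real.exp (c * K) := Real.one_le_exp (by positivity)
      push_cast
      nlinarith [pow_pos (show (0 : ℝ) < 2 by norm_num) K])
    rw [hNA] at hup
    have hN := N2_le_ND x z K r0 hr0 (by omega)
    have hN' : (N2 x z : ℝ) ≤ (ND 2 K (fun _ => range 2) (Rgh (GP x z) r0) : ℝ) + 2 * (Nat.sqrt (2 ^ K) : ℝ) := by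
      exact_mod_cast hN
    -- the square root
    have hsq : 2 * (Nat.sqrt (2 ^ K) : ℝ) ≤ 4 * √(n : ℝ) := by
      have h1 : ((Nat.sqrt (2 ^ K) : ℕ) : ℝ) ≤ √((2 ^ K : ℕ) : ℝ) := by
        apply Real.le_sqrt_of_sq_le
        have := Nat.sqrt_le' (2 ^ K)
        exact_mod_cast this
      have h2 : √((2 ^ K : ℕ) : ℝ) ≤ 2 * √(n : ℝ) := by
        rw [show (2 : ℝ) * √(n : ℝ) = √(4 * n) by
          rw [Real.sqrt_mul (by norm_num), show (4 : ℝ) = 2 ^ 2 by norm_num, Real.sqrt_sq (by norm_num)]]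
        apply Real.sqrt_le_sqrt
        have : ((2 ^ K : ℕ) : ℝ) ≤ 2 * n := by exact_mod_cast hKn2
        linarith
      linarith
    -- the product
    have hW1 := (g2 0).2
    have hWG := WG_le x z hz hzx (2 ^ K)
    rw [← hΦ] at hWG
    have hKL : Cv / (K : ℝ) ^ 4 ≤ Cv / L ^ 4 := by
      apply div_le_div_of_nonneg_left hCv.le (by positivity)
      exact pow_le_pow_left₀ hL0.le hLK 4
    have hWG2 : WG (GP x z) (2 ^ K) ≤ 6 * (Cv / L ^ 4) * Φ := by
      refine hWG.trans ?_
      apply mul_le_mul_of_nonneg_right _ (by linarith)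
      exact mul_le_mul_of_nonneg_left (hW1.trans hKL) (by norm_num)
    have h2K : (2 : ℝ) ^ K ≤ 2 * n := by exact_mod_cast hKn2
    have hmain : C * (2 : ℝ) ^ K * WG (GP x z) (2 ^ K) ≤ 12 * C * Cv * (n / L ^ 4) * Φ := by
      have h1 : C * (2 : ℝ) ^ K * WG (GP x z) (2 ^ K) ≤ C * (2 : ℝ) ^ K * (6 * (Cv / L ^ 4) * Φ) :=
        mul_le_mul_of_nonneg_left hWG2 (by positivity)
      have h2 : 0 ≤ 6 * (Cv / L ^ 4) * Φ := by positivity
      have h3 : C * (2 : ℝ) ^ K * (6 * (Cv / L ^ 4) * Φ) ≤ C * (2 * n) * (6 * (Cv / L ^ 4) * Φ) :=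
        mul_le_mul_of_nonneg_right (mul_le_mul_of_nonneg_left h2K hC.le) h2
      refine h1.trans (h3.trans (le_of_eq ?_))
      ring
    have hlast : 4 * √(n : ℝ) ≤ 4 * (n / L ^ 4) * Φ := by
      calc 4 * √(n : ℝ) ≤ n / L ^ 4 * 1 := by linarith
        _ ≤ n / L ^ 4 * Φ := mul_le_mul_of_nonneg_left hFF hnL0
        _ ≤ 4 * (n / L ^ 4) * Φ := by
            have : 0 ≤ n / L ^ 4 * Φ := by positivity
            nlinarith
    calc (N2 x z : ℝ) ≤ C * (2 : ℝ) ^ K * WG (GP x z) (2 ^ K) + 4 * √(n : ℝ) := by linarith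
      _ ≤ 12 * C * Cv * (n / L ^ 4) * Φ + 4 * (n / L ^ 4) * Φ := add_le_add hmain hlast
      _ = _ := by ring
  · push Not at hadm
    obtain ⟨p, hp, hpd⟩ := hadm
    have h1 : (N2 x z : ℝ) ≤ 4 := by exact_mod_cast N2_inadm x z p hp hpd
    have h2 : (4 : ℝ) ≤ 4 * √(n : ℝ) := by linarith
    calc (N2 x z : ℝ) ≤ n / L ^ 4 := by linarith
      _ = 1 * (n / L ^ 4) * 1 := by ring
      _ ≤ (12 * C * Cv + 4) * (n / L ^ 4) * Φ := by
          apply mul_le_mul _ hFF zero_le_one (by positivity)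
          apply mul_le_mul_of_nonneg_right _ hnL0
          have : 0 ≤ 12 * C * Cv := by positivity
          linarith

end Pool.Agent.Helper255.GG
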