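import Pool.Agent.Helper255.GG.Up

/-! Upper bound for the number of the common neighbours of two vertices, almost primes. -/

set_option autoImplicit false

open Finset Filter

namespace Pool.Agent.Helper255.GG

open Pool.Agent.Y816.PD

/-- a fixed divisor is small -/
lemma fixed_small (x z p : ℕ) (hp : p.Prime) (h : ∀ y : ℕ, (p : ℤ) ∣ GP x z y) : p ≤ 4 := by
  classical
  have : Fact p.Prime := ⟨hp⟩
  have hsub : (Finset.univ : Finset (ZMod p)) ⊆ {(x : ZMod p), -(x : ZMod p), (z : ZMod p), -(z : ZMod p)} := by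
    intro a _
    have h1 := h a.val
    rw [← ZMod.intCast_zmod_eq_zero_iff_dvd] at h1
    unfold GP at h1
    push_cast at h1
    rw [ZMod.natCast_zmod_val] at h1
    simp only [mem_insert, mem_singleton]
    rcases mul_eq_zero.1 h1 with h2 | h2
    · rcases mul_eq_zero.1 h2 with h3 | h3
      · rcases mul_eq_zero.1 h3 with h4 | h4
        · right; left
          linear_combination h4
        · left
          linear_combination -h4
      · right; right; right
        linear_combination h3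
    · right; right; left
      linear_combination h2
  have h1 := card_le_card hsub
  rw [Finset.card_univ, ZMod.card] at h1
  exact h1.trans card_le_four

/-- **The number of the rough common neighbours.** -/
theorem rough_le : ∃ C : ℝ, 0 < C ∧ ∃ n₀ : ℕ, ∀ n : ℕ, n₀ ≤ n → ∀ x z : ℕ, 1 ≤ z → z < x → x ≤ n →
    ∀ S : Finset ℕ, (∀ y ∈ S, y < n ∧ ∀ p : ℕ, p.Prime → (p : ℤ) ∣ GP x z y → 2 * n < p ^ 10) →
    (S.card : ℝ) ≤ C * (n / Real.log n ^ 4) * (G x * (F z * F (x - z) * F (x + z))) := by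
  classical
  obtain ⟨c, hc, r0, hr0, h⟩ := uni_fun 4 5 (by norm_num)
  obtain ⟨κ, C, hκ, hC, hK⟩ := h (max r0 10) (le_max_left _ _) 2 le_rfl
  obtain ⟨v, Cv, hv, hCv, hW⟩ := WG_bounds H4 H4_adm 4 (by decide) 2 le_rfl
  obtain ⟨K0, hK0⟩ := eventually_atTop.1 (hK.and (hW.and (eventually_ge_atTop 3)))
  obtain ⟨n1, hn1⟩ := Pool.Agent.H373R2.T7.ev_log' 4 4
  obtain ⟨n2, hn2⟩ := Pool.Agent.H373R2.T7.ev_L' 1
  refine ⟨12 * C * Cv + 4, by positivity, max (2 ^ K0) (max n1 (max n2 (4 ^ 10))), ?_⟩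
  intro n hn x z hz hzx hxn S hS
  have b0 : 2 ^ K0 ≤ n := (le_max_left _ _).trans hn
  have b1 : n1 ≤ n := ((le_max_left _ _).trans (le_max_right _ _)).trans hn
  have b2 : n2 ≤ n := ((le_max_left _ _).trans ((le_max_right _ _).trans (le_max_right _ _))).trans hn
  have b4 : 4 ^ 10 ≤ n := ((le_max_right _ _).trans ((le_max_right _ _).trans (le_max_right _ _))).trans hn
  have b3 : 3 ≤ n := le_trans (by norm_num) b4
  have e1 := hn1 n b1
  have e2 := hn2 n b2
  obtain ⟨L, hL⟩ : ∃ L, L = Real.log n := ⟨_, rfl⟩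
  rw [← hL] at e1 e2 ⊢
  have hnr : (3 : ℝ) ≤ n := by exact_mod_cast b3
  have hL0 : 0 < L := by linarith
  -- the number of digits
  set K := Nat.log 2 n + 1 with hKd
  have hKn : n < 2 ^ K := Nat.lt_pow_succ_log_self (by norm_num) n
  have hKn2 : 2 ^ K ≤ 2 * n := by
    rw [hKd, pow_succ, mul_comm]
    exact Nat.mul_le_mul_left 2 (Nat.pow_log_le_self 2 (by omega))
  have hKK0 : K0 ≤ K := by
    have : K0 ≤ Nat.log 2 n := Nat.le_log_of_pow_le (by norm_num) b0
    omega
  obtain ⟨g1, g2, g3⟩ := hK0 K hKK0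
  have hLK : L ≤ K := by
    rw [hL]
    have h1 : Real.log n ≤ Real.log ((2 : ℝ) ^ K) := by
      apply Real.log_le_log (by linarith)
      exact_mod_cast hKn.le
    rw [Real.log_pow] at h1
    have h2 : Real.log 2 ≤ 1 := by
      have := Real.log_two_lt_d9
      linarith
    have h3 : (0 : ℝ) ≤ K := Nat.cast_nonneg _
    nlinarith
  have hFF : 1 ≤ G x * (F z * F (x - z) * F (x + z)) := by
    have h1 := one_le_G x
    have h2 := one_le_F z
    have h3 := one_le_F (x - z)
    have h4 := one_le_F (x + z)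
    exact one_le_mul_of_one_le_of_one_le h1 (one_le_mul_of_one_le_of_one_le (one_le_mul_of_one_le_of_one_le h2 h3) h4)
  obtain ⟨Φ, hΦ⟩ : ∃ Φ, Φ = G x * (F z * F (x - z) * F (x + z)) := ⟨_, rfl⟩
  rw [← hΦ] at hFF ⊢
  -- `4 √n ≤ n / L ^ 4`
  have hsn : √(n : ℝ) * √(n : ℝ) = n := Real.mul_self_sqrt (by linarith)
  have hsn0 : 0 < √(n : ℝ) := Real.sqrt_pos.2 (by linarith)
  have hroot : 4 * √(n : ℝ) ≤ n / L ^ 4 := by
    rw [le_div_iff₀ (by positivity)]
    calc 4 * √(n : ℝ) * L ^ 4 = 4 * L ^ 4 * √(n : ℝ) := by ring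
      _ ≤ √(n : ℝ) * √(n : ℝ) := mul_le_mul_of_nonneg_right e1 hsn0.le
      _ = n := hsn
  have hnL0 : 0 ≤ (n : ℝ) / L ^ 4 := by positivity
  have hsn1 : 1 ≤ √(n : ℝ) := by
    rw [Real.one_le_sqrt]
    linarith
  by_cases hadm : ∀ p : ℕ, p.Prime → ∃ y : ℕ, ¬ (p : ℤ) ∣ GP x z y
  · -- the sieve
    have hdeg : ∃ P : Polynomial ℤ, P.natDegree ≤ 4 ∧ ∀ y : ℕ, P.eval (y : ℤ) = GP x z y := by
      refine ⟨(Polynomial.C (x : ℤ) + Polynomial.X) * (Polynomial.C (x : ℤ) - Polynomial.X) *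
        (Polynomial.X + Polynomial.C (z : ℤ)) * (Polynomial.X - Polynomial.C (z : ℤ)), ?_, ?_⟩
      · have a1 : (Polynomial.C (x : ℤ) + Polynomial.X : Polynomial ℤ).natDegree ≤ 1 := by
          refine (Polynomial.natDegree_add_le _ _).trans ?_
          rw [Polynomial.natDegree_C]
          exact max_le (by norm_num) Polynomial.natDegree_X_le
        have a2 : (Polynomial.C (x : ℤ) - Polynomial.X : Polynomial ℤ).natDegree ≤ 1 := by
          refine (Polynomial.natDegree_sub_le _ _).trans ?_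
          rw [Polynomial.natDegree_C]
          exact max_le (by norm_num) Polynomial.natDegree_X_le
        have a3 : (Polynomial.X + Polynomial.C (z : ℤ) : Polynomial ℤ).natDegree ≤ 1 := by
          refine (Polynomial.natDegree_add_le _ _).trans ?_
          rw [Polynomial.natDegree_C]
          exact max_le Polynomial.natDegree_X_le (by norm_num)
        have a4 : (Polynomial.X - Polynomial.C (z : ℤ) : Polynomial ℤ).natDegree ≤ 1 := by
          refine (Polynomial.natDegree_sub_le _ _).trans ?_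
          rw [Polynomial.natDegree_C]
          exact max_le Polynomial.natDegree_X_le (by norm_num)
        refine Polynomial.natDegree_mul_le.trans ?_
        have := (Polynomial.natDegree_mul_le (p := (Polynomial.C (x : ℤ) + Polynomial.X) * (Polynomial.C (x : ℤ) - Polynomial.X))
          (q := (Polynomial.X + Polynomial.C (z : ℤ))))
        have := (Polynomial.natDegree_mul_le (p := (Polynomial.C (x : ℤ) + Polynomial.X))
          (q := (Polynomial.C (x : ℤ) - Polynomial.X)))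
        omega
      · intro y
        simp [GP]
    have hsize : ∀ y : ℕ, y < 2 ^ K → (GP x z y).natAbs ≤ 2 ^ (5 * K) := by
      intro y hy
      unfold GP
      rw [Int.natAbs_mul, Int.natAbs_mul, Int.natAbs_mul]
      have hx2 : x < 2 ^ K := by omega
      have hz2 : z < 2 ^ K := by omega
      have a1 : ((x : ℤ) + y).natAbs ≤ 2 * 2 ^ K := by omega
      have a2 : ((x : ℤ) - y).natAbs ≤ 2 ^ K := by omega
      have a3 : ((y : ℤ) + z).natAbs ≤ 2 * 2 ^ K := by omega
      have a4 : ((y : ℤ) - z).natAbs ≤ 2 ^ K := by omega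
      calc ((x : ℤ) + y).natAbs * ((x : ℤ) - y).natAbs * ((y : ℤ) + z).natAbs * ((y : ℤ) - z).natAbs
          ≤ (2 * 2 ^ K) * 2 ^ K * (2 * 2 ^ K) * 2 ^ K := by gcongr
        _ = 2 ^ 2 * 2 ^ (4 * K) := by ring
        _ ≤ 2 ^ K * 2 ^ (4 * K) := Nat.mul_le_mul_right _ (Nat.pow_le_pow_right (by norm_num) (by omega))
        _ = 2 ^ (5 * K) := by rw [← pow_add]; congr 1; ring
    have hNA : NA K (fun _ => range 2) = (2 : ℝ) ^ K := by
      unfold NA
      simp
    obtain ⟨-, hup⟩ := g1 (GP x z) hdeg hadm hsize (fun _ => range 2) (fun i _ => subset_rfl) (by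
      rw [hNA]
      have : (1 : ℝ) ≤ Real.exp (c * K) := Real.one_le_exp (by positivity)
      push_cast
      nlinarith [pow_pos (show (0 : ℝ) < 2 by norm_num) K])
    rw [hNA] at hup
    have hN : S.card ≤ ND 2 K (fun _ => range 2) (Rgh (GP x z) (max r0 10)) := by
      unfold ND
      apply card_le_card
      intro y hy
      obtain ⟨hy1, hy2⟩ := hS y hy
      rw [mem_filter]
      refine ⟨mem_range.2 (by omega), fun i _ => mem_range.2 (Nat.mod_lt _ (by norm_num)), ?_⟩
      intro p hp hd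
      have h1 := hy2 p hp hd
      calc y < n := hy1
        _ ≤ 2 * n := by omega
        _ ≤ p ^ 10 := h1.le
        _ ≤ p ^ (max r0 10) := Nat.pow_le_pow_right hp.pos (le_max_right _ _)
    have hN' : (S.card : ℝ) ≤ (ND 2 K (fun _ => range 2) (Rgh (GP x z) (max r0 10)) : ℝ) := by
      exact_mod_cast hN
    -- the product
    have hW1 := (g2 0).2
    have hWG := WG_le x z hz hzx (2 ^ K)
    rw [← hΦ] at hWG
    have hKL : Cv / (K : ℝ) ^ 4 ≤ Cv / L ^ 4 := by
      apply div_le_div_of_nonneg_left hCv.le (by positivity)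
      exact pow_le_pow_left₀ hL0.le hLK 4
    have hWG2 : WG (GP x z) (2 ^ K) ≤ 6 * (Cv / L ^ 4) * Φ := by
      refine hWG.trans ?_
      apply mul_le_mul_of_nonneg_right _ (by linarith)
      exact mul_le_mul_of_nonneg_left (hW1.trans hKL) (by norm_num)
    have h2K : (2 : ℝ) ^ K ≤ 2 * n := by exact_mod_cast hKn2
    have hmain : C * (2 : ℝ) ^ K * WG (GP x z) (2 ^ K) ≤ 12 * C * Cv * (n / L ^ 4) * Φ := by
      have h1 : C * (2 : ℝ) ^ K * WG (GP x z) (2 ^ K) ≤ C * (2 : ℝ) ^ K * (6 * (Cv / L ^ 4) * Φ) :=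
        mul_le_mul_of_nonneg_left hWG2 (by positivity)
      have h2 : 0 ≤ 6 * (Cv / L ^ 4) * Φ := by positivity
      have h3 : C * (2 : ℝ) ^ K * (6 * (Cv / L ^ 4) * Φ) ≤ C * (2 * n) * (6 * (Cv / L ^ 4) * Φ) :=
        mul_le_mul_of_nonneg_right (mul_le_mul_of_nonneg_left h2K hC.le) h2
      refine h1.trans (h3.trans (le_of_eq ?_))
      ring
    have hlast : 4 * √(n : ℝ) ≤ 4 * (n / L ^ 4) * Φ := by
      calc 4 * √(n : ℝ) ≤ n / L ^ 4 * 1 := by linarith
        _ ≤ n / L ^ 4 * Φ := mul_le_mul_of_nonneg_left hFF hnL0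
        _ ≤ 4 * (n / L ^ 4) * Φ := by
            have : 0 ≤ n / L ^ 4 * Φ := by positivity
            nlinarith
    calc (S.card : ℝ) ≤ C * (2 : ℝ) ^ K * WG (GP x z) (2 ^ K) + 4 * √(n : ℝ) := by linarith
      _ ≤ 12 * C * Cv * (n / L ^ 4) * Φ + 4 * (n / L ^ 4) * Φ := add_le_add hmain hlast
      _ = _ := by ring
  · push Not at hadm
    obtain ⟨p, hp, hpd⟩ := hadm
    have hS0 : S = ∅ := by
      rw [Finset.eq_empty_iff_forall_notMem]
      intro y hy
      have h1 := (hS y hy).2 p hp (hpd y)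
      have h2 := fixed_small x z p hp hpd
      have h3 : p ^ 10 ≤ 4 ^ 10 := Nat.pow_le_pow_left h2 10
      omega
    rw [hS0, card_empty, Nat.cast_zero]
    have : 0 ≤ 12 * C * Cv := by positivity
    have h2 : (0 : ℝ) ≤ Φ := by linarith
    positivity

end Pool.Agent.Helper255.GG
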